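import Pool.Agent.Lib_helper27.Pack.Defs

/-!
# All numbers with a given largest prime factor fit in one window (mixed radix shifts)
-/

namespace Pool.Agent.LibH27.Pack

open Finset

/-- mixed radix code of a list of primes -/
def rad : List ℕ → ℕ
  | [] => 0
  | [_] => 0
  | p :: q :: t => (q - 1) + p * rad (q :: t)

theorem rad_lt (l : List ℕ) (hp : ∀ p ∈ l, Nat.Prime p) (hs : l.Pairwise (· ≥ ·)) :
    rad l < l.prod := by
  induction l with
  | nil => simp [rad]
  | cons p t ih =>
    cases t with
    | nil =>
      simp only [rad, List.prod_cons, List.prod_nil, mul_one]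
      exact (hp p (by simp)).pos
    | cons q t =>
      have h1 := ih (fun x hx => hp x (List.mem_cons_of_mem _ hx)) (List.pairwise_cons.1 hs).2
      have hqp : q ≤ p := (List.pairwise_cons.1 hs).1 q (by simp)
      have hq : 0 < q := (hp q (by simp)).pos
      rw [rad, List.prod_cons]
      have h2 : p * (rad (q :: t) + 1) ≤ p * (q :: t).prod := Nat.mul_le_mul_left _ h1
      rw [mul_add, mul_one] at h2
      omega

theorem rad_ne (p : ℕ) (t t' : List ℕ) (hp : ∀ x ∈ p :: t, Nat.Prime x)
    (hs : (p :: t).Pairwise (· ≥ ·)) (hp' : ∀ x ∈ p :: t', Nat.Prime x)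
    (hs' : (p :: t').Pairwise (· ≥ ·)) (hne : t ≠ t') :
    ∃ g : ℕ, g ∣ (p :: t).prod ∧ g ∣ (p :: t').prod ∧
      ¬ (g : ℤ) ∣ (rad (p :: t) : ℤ) - rad (p :: t') := by
  induction t generalizing p t' with
  | nil =>
    cases t' with
    | nil => exact absurd rfl hne
    | cons q t' =>
      have hq := hp' q (by simp)
      have hqp : q ≤ p := (List.pairwise_cons.1 hs').1 q (by simp)
      refine ⟨p, by simp, by simp, ?_⟩
      intro h
      have h1 : (p : ℤ) ∣ (q : ℤ) - 1 := by
        have h2 : (q : ℤ) - 1 = -((rad [p] : ℤ) - rad (p :: q :: t')) - p * rad (q :: t') := by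
          have := hq.one_lt
          simp only [rad]
          push_cast [Nat.cast_sub this.le]
          ring
        rw [h2]
        exact dvd_sub (dvd_neg.2 h) (Dvd.intro _ rfl)
      have h3 := Int.le_of_dvd (by have := hq.one_lt; omega) h1
      have := hq.one_lt
      omega
  | cons q t ih =>
    cases t' with
    | nil =>
      have hq := hp q (by simp)
      have hqp : q ≤ p := (List.pairwise_cons.1 hs).1 q (by simp)
      refine ⟨p, by simp, by simp, ?_⟩
      intro h
      have h1 : (p : ℤ) ∣ (q : ℤ) - 1 := by
        have h2 : (q : ℤ) - 1 = ((rad (p :: q :: t) : ℤ) - rad [p]) - p * rad (q :: t) := by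
          have := hq.one_lt
          simp only [rad]
          push_cast [Nat.cast_sub this.le]
          ring
        rw [h2]
        exact dvd_sub h (Dvd.intro _ rfl)
      have h3 := Int.le_of_dvd (by have := hq.one_lt; omega) h1
      have := hq.one_lt
      omega
    | cons q' t' =>
      have hq := hp q (by simp)
      have hqp : q ≤ p := (List.pairwise_cons.1 hs).1 q (by simp)
      have hq' := hp' q' (by simp)
      have hqp' : q' ≤ p := (List.pairwise_cons.1 hs').1 q' (by simp)
      by_cases hqq : q = q'
      · subst hqq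
        obtain ⟨g, hg1, hg2, hg3⟩ := ih q t' (fun x hx => hp x (List.mem_cons_of_mem _ hx))
          (List.pairwise_cons.1 hs).2 (fun x hx => hp' x (List.mem_cons_of_mem _ hx))
          (List.pairwise_cons.1 hs').2 (fun h => hne (by rw [h]))
        refine ⟨p * g, ?_, ?_, ?_⟩
        · rw [List.prod_cons]; exact mul_dvd_mul_left _ hg1
        · rw [List.prod_cons]; exact mul_dvd_mul_left _ hg2
        · intro h
          apply hg3
          have h1 : (rad (p :: q :: t) : ℤ) - rad (p :: q :: t') =
              p * ((rad (q :: t) : ℤ) - rad (q :: t')) := by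
            simp only [rad]
            push_cast
            ring
          rw [h1] at h
          push_cast at h
          have hp0 : (p : ℤ) ≠ 0 := by exact_mod_cast (hp p (by simp)).ne_zero
          exact (mul_dvd_mul_iff_left hp0).1 h
      · refine ⟨p, by simp, by simp, ?_⟩
        intro h
        have h1 : (p : ℤ) ∣ (q : ℤ) - q' := by
          have h2 : (q : ℤ) - q' = ((rad (p :: q :: t) : ℤ) - rad (p :: q' :: t')) -
              p * (rad (q :: t) - rad (q' :: t')) := by
            have := hq.one_lt
            have := hq'.one_lt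
            simp only [rad]
            push_cast [Nat.cast_sub (hq.one_lt.le), Nat.cast_sub (hq'.one_lt.le)]
            ring
          rw [h2]
          exact dvd_sub h (Dvd.intro _ rfl)
        have := hq.one_lt
        have := hq'.one_lt
        have h3 := Int.eq_zero_of_abs_lt_dvd h1 (by rw [abs_lt]; constructor <;> omega)
        omega

/-- The numbers `d ≤ Y` whose decreasing list of prime factors starts with `p`
pack into one window. -/
theorem PackF.radix (n p Y : ℕ) :
    PackF n {d | d ≠ 0 ∧ d ≤ Y ∧ ∃ t, d.primeFactorsList.reverse = p :: t} (n + Y) := by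
  refine ⟨fun d => (rad d.primeFactorsList.reverse : ℤ), ?_, ?_⟩
  · rintro d ⟨hd0, hdY, -⟩
    have h1 := rad_lt d.primeFactorsList.reverse
      (fun x hx => Nat.prime_of_mem_primeFactorsList (List.mem_reverse.1 hx)) (by
        rw [List.pairwise_reverse]
        exact (Nat.primeFactorsList_sorted d).pairwise)
    rw [List.prod_reverse, Nat.prod_primeFactorsList hd0] at h1
    constructor
    · positivity
    · push_cast
      omega
  · rintro d ⟨hd0, hdY, t, ht⟩ e ⟨he0, heY, t', ht'⟩ hde z ⟨⟨h1, -, -⟩, ⟨h2, -, -⟩⟩
    beta_reduce at h1 h2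
    have hpd : ∀ d : ℕ, ∀ x ∈ d.primeFactorsList.reverse, Nat.Prime x :=
      fun d x hx => Nat.prime_of_mem_primeFactorsList (List.mem_reverse.1 hx)
    have hsd : ∀ d : ℕ, d.primeFactorsList.reverse.Pairwise (· ≥ ·) := fun d => by
      rw [List.pairwise_reverse]
      exact (Nat.primeFactorsList_sorted d).pairwise
    have hpr : ∀ d : ℕ, d ≠ 0 → d.primeFactorsList.reverse.prod = d := fun d hd => by
      rw [List.prod_reverse, Nat.prod_primeFactorsList hd]
    obtain ⟨g, hg1, hg2, hg3⟩ := rad_ne p t t' (by rw [← ht]; exact hpd d)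
      (by rw [← ht]; exact hsd d) (by rw [← ht']; exact hpd e) (by rw [← ht']; exact hsd e)
      (by
        rintro rfl
        apply hde
        rw [← hpr d hd0, ← hpr e he0, ht, ht'])
    rw [← ht, hpr d hd0] at hg1
    rw [← ht', hpr e he0] at hg2
    apply hg3
    rw [← ht, ← ht']
    have h3 := dvd_sub ((Int.natCast_dvd_natCast.2 hg2).trans h2)
      ((Int.natCast_dvd_natCast.2 hg1).trans h1)
    have h4 : (rad d.primeFactorsList.reverse : ℤ) - rad e.primeFactorsList.reverse =
        z - rad e.primeFactorsList.reverse - (z - rad d.primeFactorsList.reverse) := by ring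
    rw [h4]
    exact h3

end Pool.Agent.LibH27.Pack
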