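import Pool.Agent.Lib_helper27.Pack.Greedy
import Pool.Agent.Lib_helper27.Pack.Radix

/-!
# Multiples of big primes, and the greedy range
-/

namespace Pool.Agent.LibH27.Pack

open Finset

/-- For fixed `k` the sets `A_{kp}`, `p > √n` prime, are disjoint without any shift. -/
theorem PackF.big (n k : ℕ) (hk : 1 ≤ k) :
    PackF n {d | ∃ p, p.Prime ∧ n < p * p ∧ d = k * p} n := by
  refine ⟨fun _ => 0, fun d _ => ⟨le_rfl, by simp⟩, ?_⟩
  rintro d ⟨p, hp, hpn, rfl⟩ e ⟨q, hq, hqn, rfl⟩ hde z ⟨⟨h1, h2, h3⟩, ⟨h4, -, -⟩⟩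
  rw [sub_zero] at h1 h2 h3 h4
  have hpq : p ≠ q := fun h => hde (by rw [h])
  have h5 : ((k * p * q : ℕ) : ℤ) ∣ z := by
    obtain ⟨a, ha⟩ := h1
    obtain ⟨b, hb⟩ := h4
    have hk0 : (k : ℤ) ≠ 0 := by positivity
    have h6 : (p : ℤ) * a = q * b := by
      push_cast at ha hb
      have : (k : ℤ) * (p * a) = k * (q * b) := by linarith
      exact mul_left_cancel₀ hk0 this
    have h7 : (q : ℤ) ∣ a := by
      have hcop : IsCoprime (q : ℤ) (p : ℤ) := by
        rw [Nat.isCoprime_iff_coprime]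
        exact (Nat.coprime_primes hq hp).2 (Ne.symm hpq)
      exact hcop.dvd_of_dvd_mul_left ⟨b, h6⟩
    obtain ⟨c, rfl⟩ := h7
    exact ⟨c, by rw [ha]; push_cast; ring⟩
  have h6 := Int.le_of_dvd h2 h5
  have h7 : k * p * q ≤ n := by exact_mod_cast h6.trans h3
  have h8 : n < p * q := by
    by_contra h
    push Not at h
    have h9 : (p * q) * (p * q) ≤ n * n := Nat.mul_le_mul h h
    have h10 : n * n < (p * p) * (q * q) := Nat.mul_lt_mul'' hpn hqn
    have h11 : (p * q) * (p * q) = (p * p) * (q * q) := by ring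
    omega
  have h9 : p * q ≤ k * p * q := by
    rw [mul_assoc]; exact Nat.le_mul_of_pos_left _ hk
  omega

theorem sum_div_le (n : ℕ) (T : Finset ℕ) (hT : ∀ d ∈ T, 1 ≤ d ∧ d ≤ n) :
    ((∑ e ∈ T, n / e : ℕ) : ℝ) ≤ n * (1 + Real.log n) := by
  rcases Nat.eq_zero_or_pos n with h0 | h0
  · subst h0
    have : T = ∅ := by
      rw [Finset.eq_empty_iff_forall_notMem]
      intro d hd
      have := hT d hd
      omega
    subst this
    simp
  have h1 : ((∑ e ∈ T, n / e : ℕ) : ℝ) ≤ ∑ e ∈ T, (n : ℝ) * (e : ℝ)⁻¹ := by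
    push_cast
    refine Finset.sum_le_sum fun e _ => ?_
    exact Nat.cast_div_le.trans (le_of_eq (div_eq_mul_inv _ _))
  have h2 : ∑ e ∈ T, (n : ℝ) * (e : ℝ)⁻¹ ≤ ∑ e ∈ Finset.Icc 1 n, (n : ℝ) * (e : ℝ)⁻¹ := by
    refine Finset.sum_le_sum_of_subset_of_nonneg (fun d hd => Finset.mem_Icc.2 (hT d hd))
      fun _ _ _ => by positivity
  refine h1.trans (h2.trans ?_)
  rw [← Finset.mul_sum]
  have h3 : (∑ e ∈ Finset.Icc 1 n, (e : ℝ)⁻¹) = ((harmonic n : ℚ) : ℝ) := by
    rw [harmonic_eq_sum_Icc]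
    push_cast
    rfl
  rw [h3]
  gcongr
  exact harmonic_le_one_add_log n

/-- the greedy range `Y < d ≤ n` -/
theorem PackF.large (n Y L : ℕ) (hY : 1 ≤ Y)
    (hL : (n : ℝ) * (1 + Real.log n) * (n / Y) + n ≤ L) :
    PackF n {d | Y < d ∧ d ≤ n} L := by
  have h := PackF.greedy n L (Finset.Ioc Y n) (fun d hd => by rw [Finset.mem_Ioc] at hd; omega) ?_
  · refine h.mono ?_ le_rfl
    intro d hd
    rw [Finset.mem_coe, Finset.mem_Ioc]
    exact hd
  · intro d hd
    rw [Finset.mem_Ioc] at hd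
    have h1 : ((∑ e ∈ (Finset.Ioc Y n).filter (· < d), (n / e) * (n / d) + n : ℕ) : ℝ) ≤ L := by
      push_cast
      rw [← Finset.sum_mul]
      refine le_trans ?_ hL
      have h2 := sum_div_le n ((Finset.Ioc Y n).filter (· < d)) (fun e he => by
        rw [Finset.mem_filter, Finset.mem_Ioc] at he; omega)
      push_cast at h2
      have h3 : ((n / d : ℕ) : ℝ) ≤ n / Y := by
        refine Nat.cast_div_le.trans ?_
        have hY' : (0 : ℝ) < Y := by exact_mod_cast hY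
        have : (Y : ℝ) ≤ d := by exact_mod_cast hd.1.le
        gcongr
      have h4 : (0 : ℝ) ≤ ((n / d : ℕ) : ℝ) := by positivity
      have h5 : (0 : ℝ) ≤ ∑ e ∈ (Finset.Ioc Y n).filter (· < d), ((n / e : ℕ) : ℝ) :=
        Finset.sum_nonneg fun _ _ => by positivity
      gcongr
    exact_mod_cast h1

end Pool.Agent.LibH27.Pack
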