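import Pool.Agent.Lib_helper27.Pack.Seq

/-!
# Packing a generic sequence of primes with their small multiples
-/

namespace Pool.Agent.LibH27.Pack

open Finset

/-- Collision analysis for two different primes of the sequence. -/
theorem no_collision {n D w M R W E L : ℕ} {P Q : ℕ} (hP : P.Prime) (hQ : Q.Prime) (hPQ : P ≠ Q)
    (hPW : P ≤ W) (hQW : Q ≤ W) (hR1 : 1 ≤ R)
    (hE : M * (R + 2 * W) ≤ E * R)
    (hov : n + w + (2 * E + 2 * L + M) * W ≤ D + P * Q)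
    {si sj : ℤ} (hs : sj + D ≤ si + w)
    {vi vj : ℕ} (hvj : vj < P)
    {l m : ℕ} (hlM : l ≤ M) (hmM : m ≤ M)
    (hu : ∃ u : ℤ, |u| * R < Q ∧ ((vi : ℕ) : ZMod Q) * ((P : ZMod Q))⁻¹ = u)
    (hu' : ∃ u : ℤ, |u| * R < P ∧ ((vj : ℕ) : ZMod P) * ((Q : ZMod P))⁻¹ = u)
    (hc : ∃ c : ℤ, ((n / P : ℕ) : ℤ) + E + 1 ≤ c ∧ c ≤ ((n / P : ℕ) : ℤ) + E + 2 * L - 1 ∧
      (Q : ℤ) ∣ si - (sj + c * P))
    {z : ℤ} (hz1 : Hit n (l * P) (sj + l * vj) z) (hz2 : Hit n (m * Q) (si + m * vi) z) : False := by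
  have : Fact P.Prime := ⟨hP⟩
  have : Fact Q.Prime := ⟨hQ⟩
  obtain ⟨u, hu1, hu2⟩ := hu
  obtain ⟨u', hu1', hu2'⟩ := hu'
  obtain ⟨c, hc1, hc2, hc3⟩ := hc
  have hPQ0 : (P : ZMod Q) ≠ 0 := by
    rw [Ne, ZMod.natCast_eq_zero_iff]
    exact fun h => hPQ ((Nat.prime_dvd_prime_iff_eq hQ hP).1 h).symm
  have hQP0 : (Q : ZMod P) ≠ 0 := by
    rw [Ne, ZMod.natCast_eq_zero_iff]
    exact fun h => hPQ ((Nat.prime_dvd_prime_iff_eq hP hQ).1 h)
  have hPpos : (0 : ℤ) < P := by exact_mod_cast hP.pos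
  have hQpos : (0 : ℤ) < Q := by exact_mod_cast hQ.pos
  have hRpos : (0 : ℤ) < R := by exact_mod_cast hR1
  -- z = sj + l vj + a P
  obtain ⟨⟨a0, ha0⟩, ha1, ha2⟩ := hz1
  obtain ⟨⟨b0, hb0⟩, hb1, hb2⟩ := hz2
  obtain ⟨a, ha⟩ : ∃ a : ℤ, z - (sj + l * vj) = a * P := ⟨l * a0, by rw [ha0]; push_cast; ring⟩
  obtain ⟨b, hb⟩ : ∃ b : ℤ, z - (si + m * vi) = b * Q := ⟨m * b0, by rw [hb0]; push_cast; ring⟩
  have haP : a * P ≤ n := by rw [← ha]; exact ha2
  have haQ : a ≤ ((n / P : ℕ) : ℤ) := by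
    push_cast
    exact (Int.le_ediv_iff_mul_le hPpos).2 haP
  have hbpos : 0 < b := by
    rw [hb] at hb1
    exact (mul_pos_iff_of_pos_right hQpos).1 hb1
  -- the displacements
  have hvi : (Q : ℤ) ∣ (vi : ℤ) - u * P := by
    rw [← ZMod.intCast_zmod_eq_zero_iff_dvd]
    push_cast
    rw [← hu2]
    field_simp
    ring
  obtain ⟨k, hk⟩ : ∃ k : ℤ, (vj : ℤ) - u' * Q = P * k := by
    have : (P : ℤ) ∣ (vj : ℤ) - u' * Q := by
      rw [← ZMod.intCast_zmod_eq_zero_iff_dvd]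
      push_cast
      rw [← hu2']
      field_simp
      ring
    exact this
  have hkR : |k| * R ≤ R + Q := by
    have h1 : (P : ℤ) * |k| ≤ P + |u'| * Q := by
      calc (P : ℤ) * |k| = |(P : ℤ) * k| := by rw [abs_mul, Nat.abs_cast]
        _ = |(vj : ℤ) - u' * Q| := by rw [hk]
        _ ≤ |(vj : ℤ)| + |u' * Q| := abs_sub _ _
        _ = vj + |u'| * Q := by rw [abs_mul, Nat.abs_cast, Nat.abs_cast]
        _ ≤ P + |u'| * Q := by
          have : (vj : ℤ) < P := by exact_mod_cast hvj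
          linarith
    have h2 : (P : ℤ) * (|k| * R) ≤ P * (R + Q) := by
      calc (P : ℤ) * (|k| * R) = (P * |k|) * R := by ring
        _ ≤ (P + |u'| * Q) * R := by gcongr
        _ = P * R + (|u'| * R) * Q := by ring
        _ ≤ P * R + P * Q := by gcongr
        _ = P * (R + Q) := by ring
    exact le_of_mul_le_mul_left h2 hPpos
  have hEbound : |(m : ℤ) * u| + |(l : ℤ) * k| ≤ E := by
    have h1 : (|(m : ℤ) * u| + |(l : ℤ) * k|) * R ≤ E * R := by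
      calc (|(m : ℤ) * u| + |(l : ℤ) * k|) * R = m * (|u| * R) + l * (|k| * R) := by
            rw [abs_mul, abs_mul, Nat.abs_cast, Nat.abs_cast]; ring
        _ ≤ M * Q + M * (R + Q) := by
            have : (m : ℤ) ≤ M := by exact_mod_cast hmM
            have : (l : ℤ) ≤ M := by exact_mod_cast hlM
            gcongr
        _ = M * (R + 2 * Q) := by ring
        _ ≤ M * (R + 2 * W) := by
            have : (Q : ℤ) ≤ W := by exact_mod_cast hQW
            gcongr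
        _ ≤ E * R := by exact_mod_cast hE
    exact le_of_mul_le_mul_right h1 hRpos
  have hmu := abs_le.1 (le_refl |(m : ℤ) * u|)
  have hlk := abs_le.1 (le_refl |(l : ℤ) * k|)
  -- the key divisibility
  set g : ℤ := c + m * u - l * k - a with hg
  have hdvd : (Q : ℤ) ∣ P * g := by
    have h1 : (P : ℤ) * g = -(si - (sj + c * P)) - m * ((vi : ℤ) - u * P) +
        (l * u' - b) * Q := by
      have h2 : z = sj + l * vj + a * P := by linarith
      have h3 : z = si + m * vi + b * Q := by linarith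
      have h4 : (vj : ℤ) = u' * Q + P * k := by linarith
      rw [hg]
      rw [h4] at h2
      linear_combination h2 - h3
    rw [h1]
    exact dvd_add (dvd_sub (dvd_neg.2 hc3) (Dvd.dvd.mul_left hvi _)) (Dvd.intro_left _ rfl)
  have hcop : IsCoprime (Q : ℤ) (P : ℤ) := by
    rw [Nat.isCoprime_iff_coprime]
    exact ((Nat.coprime_primes hQ hP).2 (Ne.symm hPQ))
  have hdvd' : (Q : ℤ) ∣ g := hcop.dvd_of_dvd_mul_left hdvd
  have hgpos : 0 < g := by
    rw [hg]; linarith [hmu.1, hlk.2]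
  have hglt : g < Q := by
    have h1 : g * P < Q * P := by
      have h2 : g * P ≤ (((n / P : ℕ) : ℤ) + 2 * E + 2 * L - 1 - a) * P := by
        have : g ≤ ((n / P : ℕ) : ℤ) + 2 * E + 2 * L - 1 - a := by
          rw [hg]; linarith [hmu.2, hlk.1]
        gcongr
      have h3 : ((n / P : ℕ) : ℤ) * P ≤ n := by exact_mod_cast Nat.div_mul_le_self n P
      have h4 : a * P ≥ D - w - M * P + Q := by
        have h5 : a * P = si - sj + m * vi - l * vj + b * Q := by linarith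
        have h6 : (l : ℤ) * vj ≤ M * P := by
          have : l * vj ≤ M * P := Nat.mul_le_mul hlM hvj.le
          exact_mod_cast this
        have h7 : (0 : ℤ) ≤ m * vi := by positivity
        have h8 : (Q : ℤ) ≤ b * Q := le_mul_of_one_le_left hQpos.le hbpos
        linarith
      have hov' : (n : ℤ) + w + (2 * E + 2 * L + M) * W ≤ D + P * Q := by exact_mod_cast hov
      have h9 : (2 * (E : ℤ) + 2 * L + M) * P ≤ (2 * E + 2 * L + M) * W := by
        have : (P : ℤ) ≤ W := by exact_mod_cast hPW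
        gcongr
      calc g * P ≤ (((n / P : ℕ) : ℤ) + 2 * E + 2 * L - 1 - a) * P := h2
        _ = ((n / P : ℕ) : ℤ) * P + (2 * E + 2 * L) * P - P - a * P := by ring
        _ ≤ n + (2 * E + 2 * L) * P - P - (D - w - M * P + Q) := by linarith
        _ = n + w + (2 * E + 2 * L + M) * P - D - P - Q := by ring
        _ < Q * P := by linarith [mul_comm (P : ℤ) Q]
    exact lt_of_mul_lt_mul_right h1 hPpos.le
  have := Int.le_of_dvd hgpos hdvd'
  linarith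

/-- **Packing a generic sequence.** -/
theorem seq_pack {r K H L E n D w M R W : ℕ} {p : ℕ → ℕ} (hp : ∀ i < r, (p i).Prime)
    (hinj : ∀ i < r, ∀ j < r, i ≠ j → p i ≠ p j) (hM : ∀ i < r, M < p i)
    (hW : ∀ i < r, p i ≤ W) (hw : W ≤ w)
    (hH : 1 ≤ H) (hL1 : 1 ≤ L) (hL : ∀ i < r, L ≤ p i)
    (hgen : ∀ i < r, Generic H (Ico (i - K) i) p (p i))
    (hsize : ∀ i < r, ∀ t ≤ K, (t : ℝ) * ((p i : ℝ) ^ 2 / (2 * H) *
      ((p i : ℝ) * L) ^ (t - 1)) < (L : ℝ) ^ (2 * t))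
    (hR1 : 1 ≤ R) (hR : ∀ i < r, R ^ (2 * K) < p i)
    (hE : M * (R + 2 * W) ≤ E * R)
    (hK : n + w + M * W ≤ (K + 1) * D)
    (hov : ∀ i < r, ∀ j < r, i ≠ j →
      n + w + (2 * E + 2 * L + M) * W ≤ D + p i * p j) :
    PackF n {d | ∃ i < r, ∃ m, 1 ≤ m ∧ m ≤ M ∧ d = m * p i} (r * D + n + w + M * W) := by
  classical
  obtain ⟨v, hv⟩ := exists_v hp hR1 hR
  obtain ⟨s, hs⟩ := exists_s (n := n) (E := E) (D := D) (w := w) hp hinj hH hL1 hL
    (fun i hi => (hW i hi).trans hw) hgen hsize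
  -- order-sensitive core
  have core : ∀ i < r, ∀ j < i, ∀ m l : ℕ, 1 ≤ m → m ≤ M → 1 ≤ l → l ≤ M → ∀ z,
      ¬ (Hit n (m * p i) (s i + m * v i) z ∧ Hit n (l * p j) (s j + l * v j) z) := by
    rintro i hi j hj m l hm1 hmM hl1 hlM z ⟨hz1, hz2⟩
    have hjr : j < r := hj.trans hi
    obtain ⟨h1, h2, h3⟩ := hs i hi
    obtain ⟨h4, h5, h6⟩ := hs j hjr
    obtain ⟨hvi1, hvi2, hvi3⟩ := hv i hi
    obtain ⟨hvj1, hvj2, hvj3⟩ := hv j hjr
    by_cases hij : i ≤ j + K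
    · refine no_collision (hp j hjr) (hp i hi) (hinj j hjr i hi hj.ne) (hW j hjr) (hW i hi) hR1 hE
        (hov j hjr i hi hj.ne) (si := s i) (sj := s j) ?_ hvj2 hlM hmM
        (hvi3 j hjr hj.ne (by omega) hij) (hvj3 i hi hj.ne' hij (by omega)) (h3 j hj hij) hz2 hz1
      have h7 : ((j : ℤ) + 1) * D ≤ i * D := by
        have : (j + 1) * D ≤ i * D := Nat.mul_le_mul_right _ hj
        exact_mod_cast this
      have h8 : ((j : ℤ) + 1) * D = j * D + D := by ring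
      linarith
    · obtain ⟨-, h7, h8⟩ := hz1
      obtain ⟨-, h9, h10⟩ := hz2
      have h11 : (((j + K + 1) * D : ℕ) : ℤ) ≤ ((i * D : ℕ) : ℤ) := by
        exact_mod_cast Nat.mul_le_mul_right D (by omega : j + K + 1 ≤ i)
      have h12 : ((n + w + M * W : ℕ) : ℤ) ≤ (((K + 1) * D : ℕ) : ℤ) := by exact_mod_cast hK
      have h13 : (((l * v j) : ℕ) : ℤ) ≤ ((M * W : ℕ) : ℤ) := by
        exact_mod_cast Nat.mul_le_mul hlM (hvj2.le.trans (hW j hjr))
      have h14 : (0 : ℤ) ≤ m * v i := by positivity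
      push_cast at h11 h12 h13
      have h15 : ((j : ℤ) + K + 1) * D = j * D + (K + 1) * D := by ring
      linarith
  have core2 : ∀ i < r, ∀ m l : ℕ, 1 ≤ m → m ≤ M → 1 ≤ l → l ≤ M → m ≠ l → ∀ z,
      ¬ (Hit n (m * p i) (s i + m * v i) z ∧ Hit n (l * p i) (s i + l * v i) z) := by
    rintro i hi m l hm1 hmM hl1 hlM hml z ⟨⟨hz1, -, -⟩, ⟨hz2, -, -⟩⟩
    obtain ⟨hvi1, hvi2, -⟩ := hv i hi
    have h1 : (p i : ℤ) ∣ z - (s i + m * v i) :=
      (Dvd.intro_left (m : ℤ) (by push_cast; rfl)).trans hz1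
    have h2 : (p i : ℤ) ∣ z - (s i + l * v i) :=
      (Dvd.intro_left (l : ℤ) (by push_cast; rfl)).trans hz2
    have h3 : (p i : ℤ) ∣ ((l : ℤ) - m) * v i := by
      have h4 := dvd_sub h1 h2
      have h5 : ((l : ℤ) - m) * v i = z - (s i + m * v i) - (z - (s i + l * v i)) := by ring
      rw [h5]; exact h4
    have hpi : Prime (p i : ℤ) := Nat.prime_iff_prime_int.1 (hp i hi)
    rcases hpi.dvd_or_dvd h3 with h4 | h4
    · have h5 := Int.eq_zero_of_abs_lt_dvd h4 (by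
        have := hM i hi
        rw [abs_lt]; constructor <;> omega)
      omega
    · have h5 : p i ∣ v i := by exact_mod_cast h4
      exact absurd (Nat.le_of_dvd hvi1 h5) (by omega)
  have core3 : ∀ i < r, ∀ j < r, ∀ m l : ℕ, 1 ≤ m → m ≤ M → 1 ≤ l → l ≤ M →
      m * p i ≠ l * p j → ∀ z,
      ¬ (Hit n (m * p i) (s i + m * v i) z ∧ Hit n (l * p j) (s j + l * v j) z) := by
    intro i hi j hj m l hm1 hmM hl1 hlM hne z
    rcases lt_trichotomy j i with h | h | h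
    · exact core i hi j h m l hm1 hmM hl1 hlM z
    · subst h
      exact core2 j hi m l hm1 hmM hl1 hlM (fun h => hne (by rw [h])) z
    · exact fun hz => core j hj i h l m hl1 hlM hm1 hmM z hz.symm
  -- assemble
  let σ : ℕ → ℤ := fun d => if h : ∃ im : ℕ × ℕ, im.1 < r ∧ 1 ≤ im.2 ∧ im.2 ≤ M ∧
    d = im.2 * p im.1 then s h.choose.1 + h.choose.2 * v h.choose.1 else 0
  have hσ : ∀ d ∈ {d | ∃ i < r, ∃ m, 1 ≤ m ∧ m ≤ M ∧ d = m * p i}, ∃ i < r, ∃ m, 1 ≤ m ∧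
      m ≤ M ∧ d = m * p i ∧ σ d = s i + m * v i := by
    rintro d ⟨i, hi, m, hm1, hmM, rfl⟩
    have h : ∃ im : ℕ × ℕ, im.1 < r ∧ 1 ≤ im.2 ∧ im.2 ≤ M ∧ m * p i = im.2 * p im.1 :=
      ⟨(i, m), hi, hm1, hmM, rfl⟩
    refine ⟨h.choose.1, h.choose_spec.1, h.choose.2, h.choose_spec.2.1, h.choose_spec.2.2.1,
      h.choose_spec.2.2.2, ?_⟩
    simp only [σ]
    rw [dif_pos h]
  refine ⟨σ, ?_, ?_⟩
  · intro d hd
    obtain ⟨i, hi, m, hm1, hmM, -, h1⟩ := hσ d hd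
    rw [h1]
    obtain ⟨h2, h3, -⟩ := hs i hi
    obtain ⟨hvi1, hvi2, -⟩ := hv i hi
    have h4 : (((m * v i) : ℕ) : ℤ) ≤ ((M * W : ℕ) : ℤ) := by
      exact_mod_cast Nat.mul_le_mul hmM (hvi2.le.trans (hW i hi))
    have h5 : ((i * D : ℕ) : ℤ) ≤ ((r * D : ℕ) : ℤ) := by
      exact_mod_cast Nat.mul_le_mul_right D hi.le
    have h6 : (0 : ℤ) ≤ i * D := by positivity
    have h7 : (0 : ℤ) ≤ m * v i := by positivity
    push_cast at h4 h5 ⊢
    constructor <;> linarith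
  · intro d hd e he hde z
    obtain ⟨i, hi, m, hm1, hmM, h1, h2⟩ := hσ d hd
    obtain ⟨j, hj, l, hl1, hlM, h3, h4⟩ := hσ e he
    rw [h2, h4]
    subst h1 h3
    exact core3 i hi j hj m l hm1 hmM hl1 hlM hde z

end Pool.Agent.LibH27.Pack
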