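import Pool.Agent.Lib_helper27.Pack.Order
import Pool.Agent.Lib_helper27.Pack.SeqPack

/-!
# Packing the small multiples of a block of primes
-/

namespace Pool.Agent.LibH27.Pack

open Finset

/-- finite form of the block lemma -/
theorem block_pack {n A W K H L E D w M R : ℕ} (P : Finset ℕ)
    (hP : ∀ q ∈ P, q.Prime ∧ A ≤ q ∧ q ≤ W) (hWA : W ≤ 2 * A) (hA : K * H * 2 ^ K < A)
    (hHA : H < A) (hMA : M < A) (hw : W ≤ w) (hH : 1 ≤ H) (hL1 : 1 ≤ L) (hLA : L ≤ A)
    (hsize : ∀ q ∈ P, ∀ t ≤ K, (t : ℝ) * ((q : ℝ) ^ 2 / (2 * H) *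
      ((q : ℝ) * L) ^ (t - 1)) < (L : ℝ) ^ (2 * t))
    (hR1 : 1 ≤ R) (hR : R ^ (2 * K) < A)
    (hE : M * (R + 2 * W) ≤ E * R)
    (hK : n + w + M * W ≤ (K + 1) * D)
    (hov : n + w + (2 * E + 2 * L + M) * W ≤ D + A * A) :
    PackF n {d | ∃ q ∈ P, ∃ m, 1 ≤ m ∧ m ≤ M ∧ d = m * q}
      (P.card * D + n + w + M * W + K * (2 * H + 1) ^ K * (n + W)) := by
  classical
  set B := K * (2 * H + 1) ^ K with hB
  obtain ⟨r, hr, p, h1, h2, h3⟩ : ∃ r, (r ≤ P.card ∧ P.card ≤ r + B) ∧ ∃ p : ℕ → ℕ,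
      (∀ i < r, p i ∈ P) ∧ (∀ i < r, ∀ j < r, i ≠ j → p i ≠ p j) ∧
      ∀ i < r, Generic H (Ico (i - K) i) p (p i) := by
    by_cases h : B ≤ P.card
    · exact ⟨P.card - B, ⟨by omega, by omega⟩, exists_order hWA hA hHA P hP _ (by omega)⟩
    · exact ⟨0, ⟨by omega, by omega⟩, fun _ => 0, by simp, by simp, by simp⟩
  have hseq := seq_pack (r := r) (K := K) (H := H) (L := L) (E := E) (n := n) (D := D) (w := w)
    (M := M) (R := R) (W := W) (p := p) (fun i hi => (hP _ (h1 i hi)).1) h2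
    (fun i hi => lt_of_lt_of_le hMA (hP _ (h1 i hi)).2.1) (fun i hi => (hP _ (h1 i hi)).2.2)
    hw hH hL1 (fun i hi => hLA.trans (hP _ (h1 i hi)).2.1) h3
    (fun i hi => hsize _ (h1 i hi)) hR1 (fun i hi => lt_of_lt_of_le hR (hP _ (h1 i hi)).2.1)
    hE hK (fun i hi j hj _ => hov.trans
      (Nat.add_le_add_left (Nat.mul_le_mul (hP _ (h1 i hi)).2.1 (hP _ (h1 j hj)).2.1) _))
  set I := (range r).image p with hI
  have hIcard : I.card = r := by
    rw [hI, Finset.card_image_of_injOn, card_range]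
    intro i hi j hj hij
    rw [mem_coe, mem_range] at hi hj
    by_contra hne
    exact h2 i hi j hj hne hij
  have hIP : I ⊆ P := by
    intro q hq
    rw [hI, mem_image] at hq
    obtain ⟨i, hi, rfl⟩ := hq
    exact h1 i (mem_range.1 hi)
  have hcl := PackF.iUnion (n := n) (P \ I) (fun q => {d | ∃ i, d = q * i ∧ i ≤ M})
    (fun q => (M / q + 1) * (n + q)) (fun q hq =>
      PackF.clique n q M (hP q (mem_sdiff.1 hq).1).1.one_lt.le)
  refine (hseq.union hcl).mono ?_ ?_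
  · rintro d ⟨q, hq, m, hm1, hmM, rfl⟩
    by_cases hqI : q ∈ I
    · left
      rw [hI, mem_image] at hqI
      obtain ⟨i, hi, rfl⟩ := hqI
      exact ⟨i, mem_range.1 hi, m, hm1, hmM, rfl⟩
    · right
      simp only [Set.mem_iUnion]
      exact ⟨q, mem_sdiff.2 ⟨hq, hqI⟩, m, mul_comm _ _, hmM⟩
  · have h4 : ∑ q ∈ P \ I, (M / q + 1) * (n + q) ≤ B * (n + W) := by
      calc ∑ q ∈ P \ I, (M / q + 1) * (n + q) ≤ ∑ q ∈ P \ I, (n + W) := by
            refine Finset.sum_le_sum fun q hq => ?_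
            have h5 := hP q (mem_sdiff.1 hq).1
            rw [Nat.div_eq_of_lt (by omega)]
            omega
        _ = (P \ I).card * (n + W) := by rw [Finset.sum_const, smul_eq_mul]
        _ ≤ B * (n + W) := by
            refine Nat.mul_le_mul_right _ ?_
            rw [Finset.card_sdiff_of_subset hIP]
            omega
    have h5 : r * D ≤ P.card * D := Nat.mul_le_mul_right _ hr.1
    omega

end Pool.Agent.LibH27.Pack
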