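import Pool.Agent.Lib_helper27.Pack.Block

/-!
# Asymptotic form of the block lemma
-/

namespace Pool.Agent.LibH27.Pack

open Finset Filter

theorem eventually_le_sqrt (c : ℝ) : ∀ᶠ n : ℕ in atTop, c ≤ Real.sqrt n :=
  (Real.tendsto_sqrt_atTop.comp tendsto_natCast_atTop_atTop).eventually_ge_atTop c

/-- the spacing constant of the `k`-th block -/
noncomputable def cblock (J k e : ℕ) : ℝ := max (1 - ((k : ℝ) / J) ^ 2) 0 + 1 / e

theorem block_asymp (J k e : ℕ) (hJ : 1 ≤ J) (hk : 1 ≤ k) (he : 1 ≤ e) :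
    ∃ C g : ℕ, ∀ᶠ n : ℕ in atTop, ∀ M : ℕ, (g : ℝ) * (M + 1) ^ (4 * e) ≤ Real.sqrt n →
      ∀ P : Finset ℕ, (∀ q ∈ P, q.Prime ∧ (k : ℝ) * Real.sqrt n / J ≤ q ∧ (q : ℝ) ≤ (k + 1) * Real.sqrt n / J) →
      PackF n {d | ∃ q ∈ P, ∃ m, 1 ≤ m ∧ m ≤ M ∧ d = m * q}
        (P.card * ⌈cblock J k e * n⌉₊ + C * n) := by
  -- constants
  set K : ℕ := 2 * e - 1 with hKdef
  set Λ : ℕ := 16 * e * (k + 1) * J with hΛ
  set θ : ℕ := 2 * Λ * (k + 1) with hθ
  set H : ℕ := K * θ ^ (K + 1) with hHdef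
  have hΛpos : 0 < Λ := by positivity
  have hθpos : 0 < θ := by positivity
  have hKpos : 1 ≤ K := by omega
  have hHpos : 1 ≤ H := Nat.mul_pos hKpos (by positivity)
  refine ⟨2 + 2 * (K * (2 * H + 1) ^ K), J * (K * H * 2 ^ K + H + 2 +
    (32 * e * (k + 1) ^ 2) ^ (2 * K)) + 8 * e * (3 * (k + 1)) + 4 * (k + 1), ?_⟩
  filter_upwards [eventually_le_sqrt (2 * Λ), eventually_le_sqrt (8 * e * (k + 1) + 4)]
    with n h2 h3
  intro M hM P hP
  set R : ℕ := 32 * e * (M + 1) * (k + 1) ^ 2 with hR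
  have hRpos : 1 ≤ R := by rw [hR]; exact Nat.succ_le_of_lt (by positivity)
  set s : ℝ := Real.sqrt n with hs
  have hM1 : (1 : ℝ) ≤ M + 1 := by linarith [(Nat.cast_nonneg M : (0 : ℝ) ≤ M)]
  have hMp : ((M : ℝ) + 1) ≤ (M + 1) ^ (4 * e) := le_self_pow₀ hM1 (by omega)
  have hMp1 : (1 : ℝ) ≤ (M + 1) ^ (4 * e) := hM1.trans hMp
  have hMp2 : ((M : ℝ) + 1) ^ (2 * K) ≤ (M + 1) ^ (4 * e) :=
    pow_le_pow_right₀ hM1 (by omega)
  have hJ0 : (0 : ℝ) ≤ J := Nat.cast_nonneg _
  push_cast at hM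
  have h1 : (J : ℝ) * (K * H * 2 ^ K + H + M + R ^ (2 * K) + 1) ≤ s := by
    refine le_trans ?_ hM
    have e1' : (K : ℝ) * H * 2 ^ K + H + M + R ^ (2 * K) + 1 ≤
        (K * H * 2 ^ K + H + 2 + (32 * e * (k + 1) ^ 2) ^ (2 * K)) * (M + 1) ^ (4 * e) := by
      have e2 : ((R : ℕ) : ℝ) ^ (2 * K) =
          (32 * e * (k + 1) ^ 2) ^ (2 * K) * (M + 1) ^ (2 * K) := by
        rw [hR, ← mul_pow]; push_cast; ring
      rw [e2]
      have e3 : (32 * (e : ℝ) * (k + 1) ^ 2) ^ (2 * K) * (M + 1) ^ (2 * K) ≤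
          (32 * e * (k + 1) ^ 2) ^ (2 * K) * (M + 1) ^ (4 * e) := by gcongr
      have e4 : (K : ℝ) * H * 2 ^ K + H ≤ (K * H * 2 ^ K + H) * (M + 1) ^ (4 * e) :=
        le_mul_of_one_le_right (by positivity) hMp1
      have e5 : (M : ℝ) + 1 ≤ 2 * (M + 1) ^ (4 * e) := by linarith
      linarith
    have e1 : (J : ℝ) * (K * H * 2 ^ K + H + M + R ^ (2 * K) + 1) ≤
        J * (K * H * 2 ^ K + H + 2 + (32 * e * (k + 1) ^ 2) ^ (2 * K)) * (M + 1) ^ (4 * e) :=
      (mul_le_mul_of_nonneg_left e1' hJ0).trans (le_of_eq (by ring))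
    refine e1.trans ?_
    gcongr
    have : (0 : ℝ) ≤ 8 * e * (3 * (k + 1)) + 4 * (k + 1) := by positivity
    linarith
  have h4 : (8 : ℝ) * e * ((3 * M + 2) * (k + 1)) ≤ s := by
    refine le_trans ?_ hM
    have e1 : (8 : ℝ) * e * ((3 * M + 2) * (k + 1)) ≤
        8 * e * (3 * (k + 1)) * (M + 1) ^ (4 * e) := by
      calc (8 : ℝ) * e * ((3 * M + 2) * (k + 1)) ≤ 8 * e * ((3 * (M + 1)) * (k + 1)) := by
            gcongr; linarith
        _ = 8 * e * (3 * (k + 1)) * (M + 1) := by ring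
        _ ≤ _ := by gcongr
    refine e1.trans ?_
    gcongr
    have : (0 : ℝ) ≤ J * (K * H * 2 ^ K + H + 2 + (32 * e * (k + 1) ^ 2) ^ (2 * K)) +
      4 * (k + 1) := by positivity
    linarith
  have h5 : (4 : ℝ) * (M + 1) * (k + 1) ≤ s := by
    refine le_trans ?_ hM
    have e1 : (4 : ℝ) * (M + 1) * (k + 1) ≤ 4 * (k + 1) * (M + 1) ^ (4 * e) := by
      calc (4 : ℝ) * (M + 1) * (k + 1) = 4 * (k + 1) * (M + 1) := by ring
        _ ≤ _ := by gcongr
    refine e1.trans ?_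
    gcongr
    have : (0 : ℝ) ≤ J * (K * H * 2 ^ K + H + 2 + (32 * e * (k + 1) ^ 2) ^ (2 * K)) +
      8 * e * (3 * (k + 1)) := by positivity
    linarith
  have hs0 : 0 ≤ s := Real.sqrt_nonneg _
  have hss : s * s = n := Real.mul_self_sqrt (Nat.cast_nonneg _)
  have hJr : (1 : ℝ) ≤ J := by exact_mod_cast hJ
  have hkr : (1 : ℝ) ≤ k := by exact_mod_cast hk
  have her : (1 : ℝ) ≤ e := by exact_mod_cast he
  have hΛr : (0 : ℝ) < Λ := by exact_mod_cast hΛpos
  have hspos : 0 < s := by linarith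
  -- derived quantities
  set A : ℕ := ⌈(k : ℝ) * s / J⌉₊ with hA
  set W : ℕ := ⌊((k : ℝ) + 1) * s / J⌋₊ with hW
  set w : ℕ := n / (4 * e) with hw
  set L : ℕ := ⌊s / Λ⌋₊ with hL
  set E : ℕ := M + (2 * M * W) / R + 1 with hE
  set D : ℕ := ⌈cblock J k e * n⌉₊ with hD
  have hA1 : (k : ℝ) * s / J ≤ A := Nat.le_ceil _
  have hW1 : (W : ℝ) ≤ (k + 1) * s / J := Nat.floor_le (by positivity)
  have hW2 : (W : ℝ) ≤ (k + 1) * s := hW1.trans (div_le_self (by positivity) hJr)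
  have hAs : s / J ≤ A := by
    refine le_trans ?_ hA1
    gcongr
    exact le_mul_of_one_le_left hs0 hkr
  have hbig : (K : ℝ) * H * 2 ^ K + H + M + R ^ (2 * K) + 1 ≤ A := by
    refine le_trans ?_ hAs
    rw [le_div_iff₀ (by linarith)]
    linarith [h1]
  have hbigN : K * H * 2 ^ K + H + M + R ^ (2 * K) + 1 ≤ A := by exact_mod_cast hbig
  have hL2 : (L : ℝ) ≤ s / Λ := Nat.floor_le (by positivity)
  have hL3 : s / (2 * Λ) ≤ L := by
    have h6 : s / Λ - 1 < L := Nat.sub_one_lt_floor _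
    have h7 : 1 ≤ s / (2 * Λ) := by
      rw [le_div_iff₀ (by positivity)]; linarith
    have h8 : s / Λ = 2 * (s / (2 * Λ)) := by field_simp
    linarith
  have hL1 : 1 ≤ L := by
    have h7 : 1 ≤ s / (2 * Λ) := by
      rw [le_div_iff₀ (by positivity)]; linarith
    have : (1 : ℝ) ≤ L := h7.trans hL3
    exact_mod_cast this
  have hKe : ((K : ℝ) + 1) = 2 * e := by
    have : K + 1 = 2 * e := by omega
    exact_mod_cast this
  have hwr : (w : ℝ) ≤ n / (4 * e) := by
    have := @Nat.cast_div_le ℝ _ _ _ n (4 * e)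
    push_cast at this
    exact this
  have hDr : cblock J k e * n ≤ D := Nat.le_ceil _
  have hc1 : (1 : ℝ) / e ≤ cblock J k e := by
    unfold cblock
    linarith [le_max_right (1 - ((k : ℝ) / J) ^ 2) 0]
  have hc2 : 1 - ((k : ℝ) / J) ^ 2 + 1 / e ≤ cblock J k e := by
    unfold cblock
    linarith [le_max_left (1 - ((k : ℝ) / J) ^ 2) 0]
  have hn0 : (0 : ℝ) ≤ n := Nat.cast_nonneg _
  have hD1 : (n : ℝ) / e ≤ D := by
    refine le_trans ?_ hDr
    calc (n : ℝ) / e = 1 / e * n := by ring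
      _ ≤ _ := by gcongr
  have hMW : (M : ℝ) * W ≤ n / 4 := by
    calc (M : ℝ) * W ≤ (M + 1) * ((k + 1) * s) := by
          gcongr
          linarith
      _ = (4 * (M + 1) * (k + 1)) * s / 4 := by ring
      _ ≤ s * s / 4 := by gcongr
      _ = n / 4 := by rw [hss]
  have hWn : (W : ℝ) ≤ n / 4 := by
    calc (W : ℝ) ≤ (0 + 1) * ((k + 1) * s) := by linarith
      _ ≤ (M + 1) * ((k + 1) * s) := by gcongr; positivity
      _ = (4 * (M + 1) * (k + 1)) * s / 4 := by ring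
      _ ≤ s * s / 4 := by gcongr
      _ = n / 4 := by rw [hss]
  have hwn : (w : ℝ) ≤ n / 4 := by
    refine hwr.trans ?_
    gcongr
    linarith
  have hp := block_pack (n := n) (A := A) (W := W) (K := K) (H := H) (L := L) (E := E) (D := D)
    (w := w) (M := M) (R := R) P
    (fun q hq => ⟨(hP q hq).1, Nat.ceil_le.2 (hP q hq).2.1, Nat.le_floor (hP q hq).2.2⟩)
    ?_ (by omega) (by omega) (by omega) ?_ hHpos hL1 ?_ ?_ hRpos (by omega) ?_ ?_ ?_
  · refine hp.mono (le_refl _) ?_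
    have h6 : (n : ℝ) + w + M * W + K * (2 * H + 1) ^ K * (n + W) ≤
        (2 + 2 * (K * (2 * H + 1) ^ K)) * n := by
      have h7 : (K : ℝ) * (2 * H + 1) ^ K * (n + W) ≤ K * (2 * H + 1) ^ K * (2 * n) := by
        gcongr
        linarith
      have h8 : (n : ℝ) + w + M * W ≤ 2 * n := by linarith
      linarith
    have h7 : n + w + M * W + K * (2 * H + 1) ^ K * (n + W) ≤
        (2 + 2 * (K * (2 * H + 1) ^ K)) * n := by exact_mod_cast h6
    omega
  · -- W ≤ 2 A
    have h6 : (W : ℝ) ≤ 2 * A := by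
      refine hW1.trans ?_
      calc ((k : ℝ) + 1) * s / J ≤ (2 * k) * s / J := by gcongr; linarith
        _ = 2 * (k * s / J) := by ring
        _ ≤ 2 * A := by gcongr
    exact_mod_cast h6
  · -- W ≤ w
    rw [hw, Nat.le_div_iff_mul_le (by positivity)]
    have h6 : (W : ℝ) * (4 * e) ≤ n := by
      calc (W : ℝ) * (4 * e) ≤ ((k + 1) * s) * (4 * e) := by gcongr
        _ = (4 * e * (k + 1)) * s := by ring
        _ ≤ s * s := by
          gcongr
          have : (0 : ℝ) ≤ e * (k + 1) := by positivity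
          linarith
        _ = n := hss
    exact_mod_cast h6
  · -- L ≤ A
    have h6 : (L : ℝ) ≤ A := by
      refine hL2.trans (le_trans ?_ hAs)
      have h7 : (J : ℝ) ≤ Λ := by
        have : J ≤ Λ := by
          rw [hΛ]
          exact Nat.le_mul_of_pos_left J (by positivity)
        exact_mod_cast this
      gcongr
    exact_mod_cast h6
  · -- size
    intro q hq t ht
    rcases Nat.eq_zero_or_pos t with h0 | htpos
    · subst h0; simp
    obtain ⟨u, rfl⟩ : ∃ u, t = u + 1 := ⟨t - 1, by omega⟩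
    have hLpos : (0 : ℝ) < L := by exact_mod_cast hL1
    have hqθ : (q : ℝ) ≤ θ * L := by
      calc (q : ℝ) ≤ (k + 1) * s / J := (hP q hq).2.2
        _ ≤ (k + 1) * s := div_le_self (by positivity) hJr
        _ = (2 * Λ * (k + 1)) * (s / (2 * Λ)) := by field_simp
        _ ≤ (2 * Λ * (k + 1)) * L := by gcongr
        _ = θ * L := by rw [hθ]; push_cast; ring
    have hHr : (0 : ℝ) < H := by exact_mod_cast hHpos
    rw [Nat.add_sub_cancel]
    have h6 : (((u + 1 : ℕ) : ℝ)) * ((θ : ℝ) ^ (u + 2)) ≤ H := by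
      have h7 : (u + 1) * θ ^ (u + 2) ≤ H := by
        rw [hHdef]
        exact Nat.mul_le_mul ht (Nat.pow_le_pow_right hθpos (by omega))
      exact_mod_cast h7
    calc (((u + 1 : ℕ) : ℝ)) * ((q : ℝ) ^ 2 / (2 * H) * ((q : ℝ) * L) ^ u)
        ≤ (((u + 1 : ℕ) : ℝ)) * ((θ * L : ℝ) ^ 2 / (2 * H) * ((θ * L : ℝ) * L) ^ u) := by
          gcongr
      _ = (((u + 1 : ℕ) : ℝ) * ((θ : ℝ) ^ (u + 2))) * (L : ℝ) ^ (2 * (u + 1)) / (2 * H) := by
          have h8 : ((θ * L : ℝ) * L) ^ u = (θ : ℝ) ^ u * (L : ℝ) ^ (2 * u) := by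
            rw [mul_assoc, mul_pow, ← sq, ← pow_mul]
          rw [h8]
          ring
      _ ≤ (H : ℝ) * (L : ℝ) ^ (2 * (u + 1)) / (2 * H) := by gcongr
      _ = (L : ℝ) ^ (2 * (u + 1)) / 2 := by field_simp
      _ < (L : ℝ) ^ (2 * (u + 1)) := by
          have : (0 : ℝ) < (L : ℝ) ^ (2 * (u + 1)) := by positivity
          linarith
  · -- E
    rw [hE]
    have h6 : 2 * M * W ≤ (2 * M * W / R + 1) * R := by
      have h7 := Nat.div_add_mod (2 * M * W) R
      have h8 := Nat.mod_lt (2 * M * W) hRpos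
      calc 2 * M * W = R * (2 * M * W / R) + 2 * M * W % R := h7.symm
        _ ≤ R * (2 * M * W / R) + R := by omega
        _ = (2 * M * W / R + 1) * R := by ring
    calc M * (R + 2 * W) = M * R + 2 * M * W := by ring
      _ ≤ M * R + (2 * M * W / R + 1) * R := by omega
      _ = (M + 2 * M * W / R + 1) * R := by ring
  · -- K
    have h6 : (n : ℝ) + w + M * W ≤ (K + 1) * D := by
      have h7 : ((K : ℝ) + 1) * D ≥ 2 * n := by
        rw [hKe]
        calc 2 * (e : ℝ) * D ≥ 2 * e * (n / e) := by gcongr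
          _ = 2 * n := by field_simp
      linarith
    exact_mod_cast h6
  · -- overlap
    have hEr : (E : ℝ) ≤ M + 2 * M * W / R + 1 := by
      have h6 : (((2 * M * W) / R : ℕ) : ℝ) ≤ ((2 * M * W : ℕ) : ℝ) / R := Nat.cast_div_le
      rw [hE]
      push_cast at h6 ⊢
      linarith
    have hRr : (R : ℝ) = 32 * e * (M + 1) * (k + 1) ^ 2 := by rw [hR]; push_cast; ring
    have hΛe : (Λ : ℝ) = 16 * e * (k + 1) * J := by rw [hΛ]; push_cast; ring
    have hW0 : (0 : ℝ) ≤ W := Nat.cast_nonneg _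
    have hepos : (0 : ℝ) < e := by linarith
    have hkpos : (0 : ℝ) < k + 1 := by linarith
    have hMpos : (0 : ℝ) < M + 1 := by positivity
    have h6 : (2 * M * W / R : ℝ) * (2 * W) ≤ n / (8 * e) := by
      calc (2 * M * W / R : ℝ) * (2 * W) = 4 * M * (W * W) / R := by ring
        _ ≤ 4 * (M + 1) * (((k + 1) * s) * ((k + 1) * s)) / R := by
            gcongr
            linarith
        _ = 4 * (M + 1) * (k + 1) ^ 2 * (s * s) / R := by ring
        _ = n / (8 * e) := by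
            rw [hss, hRr]
            field_simp
            ring
    have h7 : (2 * L : ℝ) * W ≤ n / (8 * e) := by
      calc (2 * L : ℝ) * W ≤ (2 * (s / Λ)) * ((k + 1) * s / J) := by gcongr
        _ = 2 * (k + 1) * (s * s) / (Λ * J) := by ring
        _ ≤ 2 * (k + 1) * (s * s) / (Λ * 1) := by gcongr
        _ = n / (8 * e) * (1 / J) := by
            rw [hss, hΛe]
            field_simp
            ring
        _ ≤ n / (8 * e) * 1 := by
            gcongr
            rw [div_le_one (by linarith)]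
            exact hJr
        _ = n / (8 * e) := mul_one _
    have h8 : (3 * M + 2 : ℝ) * W ≤ n / (8 * e) := by
      rw [le_div_iff₀ (by positivity)]
      calc (3 * M + 2 : ℝ) * W * (8 * e) ≤ (3 * M + 2) * ((k + 1) * s) * (8 * e) := by gcongr
        _ = (8 * e * ((3 * M + 2) * (k + 1))) * s := by ring
        _ ≤ s * s := by gcongr
        _ = n := hss
    have h9 : (w : ℝ) ≤ 2 * (n / (8 * e)) := by
      refine hwr.trans (le_of_eq ?_)
      field_simp
      ring
    have h10 : (n : ℝ) / e = 8 * (n / (8 * e)) := by field_simp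
    have h11 : (D : ℝ) + A * A ≥ n + n / e := by
      have h12 : (A : ℝ) * A ≥ (k * s / J) * (k * s / J) := by gcongr
      have h13 : ((k : ℝ) * s / J) * (k * s / J) = (k / J) ^ 2 * n := by
        rw [← hss]; ring
      have h14 : (1 - ((k : ℝ) / J) ^ 2 + 1 / e) * n ≤ D := by
        refine le_trans ?_ hDr
        gcongr
      have h15 : (1 - ((k : ℝ) / J) ^ 2 + 1 / e) * n = n - (k / J) ^ 2 * n + n / e := by ring
      linarith
    have h16 : (0 : ℝ) ≤ n / (8 * e) := by positivity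
    have h17 : (n : ℝ) + w + (2 * E + 2 * L + M) * W ≤ D + A * A := by
      have h18 : (2 * (E : ℝ) + 2 * L + M) * W ≤
          (2 * M * W / R : ℝ) * (2 * W) + (2 * L : ℝ) * W + (3 * M + 2 : ℝ) * W := by
        calc (2 * (E : ℝ) + 2 * L + M) * W ≤
            (2 * (M + 2 * M * W / R + 1) + 2 * L + M) * W := by gcongr
          _ = _ := by ring
      linarith
    exact_mod_cast h17

end Pool.Agent.LibH27.Pack
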