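import Mathlib

/-!
# Packing the progressions of multiples up to `n`: definitions and basic operations
-/

namespace Pool.Agent.LibH27.Pack

/-- `A_d = {d, 2d, …, ⌊n/d⌋ d}`, the positive multiples of `d` that are at most `n`. -/
def mults (n d : ℕ) : Set ℤ := {x | ∃ j : ℕ, 1 ≤ j ∧ j * d ≤ n ∧ x = ((j * d : ℕ) : ℤ)}

/-- The sets `A_1, …, A_k` pack into `[m]`: there are integer shifts `s_d` with
`s_d + A_d ⊆ {1, …, m}` and the shifted sets are pairwise disjoint. -/
def Packs (n k m : ℕ) : Prop :=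
  ∃ s : ℕ → ℤ,
    (∀ d ∈ Finset.Icc 1 k, ∀ x ∈ mults n d, 1 ≤ s d + x ∧ s d + x ≤ m) ∧
    (∀ d ∈ Finset.Icc 1 k, ∀ e ∈ Finset.Icc 1 k, d ≠ e →
      ∀ x ∈ mults n d, ∀ y ∈ mults n e, s d + x ≠ s e + y)

/-- `m_k(n)`, the least `m` such that `A_1, …, A_k` pack into `[m]`. -/
noncomputable def packNumK (n k : ℕ) : ℕ := sInf {m | Packs n k m}

/-- `m(n) = m_n(n)`. -/
noncomputable def packNum (n : ℕ) : ℕ := packNumK n n

/-- `z` lies in `s + A_d`. -/
def Hit (n d : ℕ) (s z : ℤ) : Prop := (d : ℤ) ∣ z - s ∧ 0 < z - s ∧ z - s ≤ n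

theorem hit_iff {n d : ℕ} (hd : 1 ≤ d) (s z : ℤ) : Hit n d s z ↔ z - s ∈ mults n d := by
  unfold Hit mults
  constructor
  · rintro ⟨⟨c, hc⟩, h0, h1⟩
    have hc0 : 0 < c := by
      by_contra h
      push Not at h
      have : (d : ℤ) * c ≤ 0 := mul_nonpos_of_nonneg_of_nonpos (by positivity) h
      omega
    refine ⟨c.toNat, by omega, ?_, ?_⟩
    · have : ((c.toNat * d : ℕ) : ℤ) ≤ n := by
        push_cast
        rw [Int.toNat_of_nonneg hc0.le, mul_comm, ← hc]
        exact h1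
      exact_mod_cast this
    · push_cast
      rw [Int.toNat_of_nonneg hc0.le, mul_comm]
      exact hc
  · rintro ⟨j, h1, h2, h3⟩
    refine ⟨⟨j, by rw [h3]; push_cast; ring⟩, ?_, ?_⟩
    · rw [h3]
      have : 0 < j * d := Nat.mul_pos h1 hd
      exact_mod_cast this
    · rw [h3]; exact_mod_cast h2

/-- The family `{A_d : d ∈ F}` packs into `[L]`, in a slightly strong form: the whole windows
`(s_d, s_d + n]` are inside `(0, L]`. -/
def PackF (n : ℕ) (F : Set ℕ) (L : ℕ) : Prop :=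
  ∃ s : ℕ → ℤ, (∀ d ∈ F, 0 ≤ s d ∧ s d + n ≤ L) ∧
    ∀ d ∈ F, ∀ e ∈ F, d ≠ e → ∀ z, ¬ (Hit n d (s d) z ∧ Hit n e (s e) z)

theorem PackF.mono {n : ℕ} {F G : Set ℕ} {L L' : ℕ} (h : PackF n F L) (hG : G ⊆ F) (hL : L ≤ L') :
    PackF n G L' := by
  obtain ⟨s, h1, h2⟩ := h
  refine ⟨s, fun d hd => ?_, fun d hd e he => h2 d (hG hd) e (hG he)⟩
  obtain ⟨h3, h4⟩ := h1 d (hG hd)
  exact ⟨h3, by omega⟩

theorem PackF.empty (n : ℕ) (L : ℕ) : PackF n ∅ L :=
  ⟨fun _ => 0, by simp, by simp⟩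

theorem PackF.union {n : ℕ} {F G : Set ℕ} {L L' : ℕ} (hF : PackF n F L) (hG : PackF n G L') :
    PackF n (F ∪ G) (L + L') := by
  classical
  obtain ⟨s, h1, h2⟩ := hF
  obtain ⟨t, h3, h4⟩ := hG
  refine ⟨fun d => if d ∈ F then s d else L + t d, ?_, ?_⟩
  · intro d hd
    by_cases hdF : d ∈ F
    · simp only [hdF, if_true]
      obtain ⟨h5, h6⟩ := h1 d hdF
      push_cast
      constructor <;> omega
    · simp only [hdF, if_false]
      obtain ⟨h5, h6⟩ := h3 d (hd.resolve_left hdF)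
      push_cast
      constructor <;> omega
  · intro d hd e he hde z
    by_cases hdF : d ∈ F <;> by_cases heF : e ∈ F
    · simp only [hdF, heF, if_true]
      exact h2 d hdF e heF hde z
    · simp only [hdF, heF, if_true, if_false]
      obtain ⟨h5, h6⟩ := h1 d hdF
      obtain ⟨h7, h8⟩ := h3 e (he.resolve_left heF)
      rintro ⟨⟨_, h9, h10⟩, ⟨_, h11, h12⟩⟩
      omega
    · simp only [hdF, heF, if_true, if_false]
      obtain ⟨h5, h6⟩ := h1 e heF
      obtain ⟨h7, h8⟩ := h3 d (hd.resolve_left hdF)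
      rintro ⟨⟨_, h9, h10⟩, ⟨_, h11, h12⟩⟩
      omega
    · simp only [hdF, heF, if_false]
      rintro ⟨⟨h9, h10, h11⟩, ⟨h12, h13, h14⟩⟩
      refine h4 d (hd.resolve_left hdF) e (he.resolve_left heF) hde (z - L) ⟨⟨?_, ?_, ?_⟩, ?_, ?_, ?_⟩
      · rwa [show z - (L : ℤ) - t d = z - (L + t d) by ring]
      · omega
      · omega
      · rwa [show z - (L : ℤ) - t e = z - (L + t e) by ring]
      · omega
      · omega

theorem PackF.iUnion {n : ℕ} {ι : Type*} (S : Finset ι) (F : ι → Set ℕ) (L : ι → ℕ)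
    (h : ∀ i ∈ S, PackF n (F i) (L i)) : PackF n (⋃ i ∈ S, F i) (∑ i ∈ S, L i) := by
  classical
  induction S using Finset.induction_on with
  | empty => simpa using PackF.empty n 0
  | insert a S ha ih =>
    rw [Finset.sum_insert ha, Finset.set_biUnion_insert]
    exact (h a (Finset.mem_insert_self _ _)).union
      (ih fun i hi => h i (Finset.mem_insert_of_mem hi))

theorem PackF.packs {n L : ℕ} (h : PackF n (Set.Icc 1 n) L) : Packs n n L := by
  obtain ⟨s, h1, h2⟩ := h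
  refine ⟨s, fun d hd x hx => ?_, fun d hd e he hde x hx y hy hxy => ?_⟩
  · rw [Finset.mem_Icc] at hd
    obtain ⟨h3, h4⟩ := h1 d hd
    have h5 : Hit n d (s d) (s d + x) := (hit_iff hd.1 _ _).2 (by simpa using hx)
    obtain ⟨-, h6, h7⟩ := h5
    constructor <;> omega
  · rw [Finset.mem_Icc] at hd he
    refine h2 d hd e he hde (s d + x) ⟨(hit_iff hd.1 _ _).2 (by simpa using hx), ?_⟩
    rw [hxy]
    exact (hit_iff he.1 _ _).2 (by simpa using hy)

/-- All multiples of `g` up to `g * Y` pack into `Y / g + 1` windows of length `n + g`. -/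
theorem PackF.clique (n g Y : ℕ) (hg : 1 ≤ g) :
    PackF n {d | ∃ i, d = g * i ∧ i ≤ Y} ((Y / g + 1) * (n + g)) := by
  refine ⟨fun d => ((d / g / g : ℕ) : ℤ) * (n + g) + ((d / g % g : ℕ) : ℤ), ?_, ?_⟩
  · rintro d ⟨i, rfl, hi⟩
    beta_reduce
    rw [Nat.mul_div_cancel_left _ hg]
    have h1 : i / g ≤ Y / g := Nat.div_le_div_right hi
    have h2 : i % g < g := Nat.mod_lt _ hg
    refine ⟨by positivity, ?_⟩
    have h3 : (i / g) * (n + g) + i % g + n ≤ (Y / g + 1) * (n + g) := by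
      have : (i / g) * (n + g) ≤ (Y / g) * (n + g) := Nat.mul_le_mul_right _ h1
      rw [add_mul, one_mul]
      omega
    exact_mod_cast h3
  · rintro d ⟨i, rfl, hi⟩ e ⟨j, rfl, hj⟩ hde z
    beta_reduce
    rw [Nat.mul_div_cancel_left _ hg, Nat.mul_div_cancel_left _ hg]
    rintro ⟨⟨h1, h2, h3⟩, ⟨h4, h5, h6⟩⟩
    have hij : i ≠ j := fun h => hde (by rw [h])
    have h7 : i % g < g := Nat.mod_lt _ hg
    have h8 : j % g < g := Nat.mod_lt _ hg
    have key : ∀ a b : ℕ, a < b → (b : ℤ) * (n + g) ≥ (a : ℤ) * (n + g) + (n + g) := by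
      intro a b hab
      have : (a + 1) * (n + g) ≤ b * (n + g) := Nat.mul_le_mul_right _ hab
      have h' : (((a + 1) * (n + g) : ℕ) : ℤ) ≤ ((b * (n + g) : ℕ) : ℤ) := by exact_mod_cast this
      push_cast at h'
      linarith
    rcases lt_trichotomy (i / g) (j / g) with h | h | h
    · have := key _ _ h
      push_cast at *
      have h9 : (0 : ℤ) ≤ (j : ℤ) % g := Int.emod_nonneg _ (by positivity)
      have h10 : ((i % g : ℕ) : ℤ) < g := by exact_mod_cast h7
      push_cast at h10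
      linarith
    · have h9 : (g : ℤ) ∣ z - (((i / g : ℕ) : ℤ) * (n + g) + ((i % g : ℕ) : ℤ)) :=
        (Dvd.intro _ (by push_cast; rfl)).trans h1
      have h10 : (g : ℤ) ∣ z - (((j / g : ℕ) : ℤ) * (n + g) + ((j % g : ℕ) : ℤ)) :=
        (Dvd.intro _ (by push_cast; rfl)).trans h4
      have h11 := dvd_sub h10 h9
      rw [h] at h11
      have h12 : (g : ℤ) ∣ ((i % g : ℕ) : ℤ) - ((j % g : ℕ) : ℤ) := by
        have h14 : ((i % g : ℕ) : ℤ) - ((j % g : ℕ) : ℤ) =
            z - (((j / g : ℕ) : ℤ) * (n + g) + ((j % g : ℕ) : ℤ)) -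
            (z - (((j / g : ℕ) : ℤ) * (n + g) + ((i % g : ℕ) : ℤ))) := by ring
        rw [h14]; exact h11
      have h13 : i % g = j % g := by
        have := Int.eq_zero_of_abs_lt_dvd h12 (by
          rw [abs_lt]; constructor <;> omega)
        omega
      exact hij (by rw [← Nat.div_add_mod i g, ← Nat.div_add_mod j g, h, h13])
    · have := key _ _ h
      push_cast at *
      have h9 : (0 : ℤ) ≤ (i : ℤ) % g := Int.emod_nonneg _ (by positivity)
      have h10 : ((j % g : ℕ) : ℤ) < g := by exact_mod_cast h8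
      push_cast at h10
      linarith

end Pool.Agent.LibH27.Pack
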