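import Mathlib

/-!
# Simultaneous Dirichlet approximation in `ZMod p` and counting of bad primes
-/

namespace Pool.Agent.LibH27.Pack

open Finset

theorem dirichlet {p : ℕ} [NeZero p] {ι : Type*} [Fintype ι] (b : ι → ZMod p) (R : ℕ)
    (hR : 1 ≤ R) (hRp : R ^ Fintype.card ι < p) :
    ∃ v : ZMod p, v ≠ 0 ∧ ∀ i, ∃ u : ℤ, |u| * R < p ∧ v * b i = (u : ZMod p) := by
  classical
  have hp : 0 < p := Nat.pos_of_ne_zero (NeZero.ne p)
  let f : ZMod p → ι → Fin R := fun x i => ⟨(x * b i).val * R / p, by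
    rw [Nat.div_lt_iff_lt_mul hp, mul_comm]
    exact Nat.mul_lt_mul_of_pos_left (ZMod.val_lt _) hR⟩
  obtain ⟨x, y, hxy, hf⟩ := Fintype.exists_ne_map_eq_of_card_lt f (by
    rw [ZMod.card, Fintype.card_fun, Fintype.card_fin]; exact hRp)
  refine ⟨x - y, sub_ne_zero.2 hxy, fun i => ⟨((x * b i).val : ℤ) - ((y * b i).val : ℤ), ?_, ?_⟩⟩
  · have h1 := congrFun hf i
    simp only [f, Fin.mk.injEq] at h1
    set A := (x * b i).val
    set B := (y * b i).val
    have h2 := Nat.div_add_mod (A * R) p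
    have h3 := Nat.div_add_mod (B * R) p
    have h4 := Nat.mod_lt (A * R) hp
    have h5 := Nat.mod_lt (B * R) hp
    rw [h1] at h2
    have h6 : (((A : ℤ) - B) * R) = ((A * R : ℕ) : ℤ) - ((B * R : ℕ) : ℤ) := by push_cast; ring
    have h7 : |(((A : ℤ) - B) * R)| < p := by
      rw [h6, abs_lt]
      constructor <;> omega
    rwa [abs_mul, Nat.abs_cast] at h7
  · push_cast
    rw [ZMod.natCast_zmod_val, ZMod.natCast_zmod_val]
    ring

end Pool.Agent.LibH27.Pack
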