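import Pool.Agent.Lib_helper27.Pack.Fourier

/-!
# Box hitting in `ZMod q`
-/

namespace Pool.Agent.LibH27.Pack

open Finset

section

variable {q : ℕ} [NeZero q] {ι : Type*} [Fintype ι] [DecidableEq ι]

theorem addChar_sum {G : Type*} [AddCommGroup G] (ψ : AddChar G ℂ) {κ : Type*} [DecidableEq κ]
    (s : Finset κ) (f : κ → G) : ψ (∑ i ∈ s, f i) = ∏ i ∈ s, ψ (f i) := by
  induction s using Finset.induction_on with
  | empty => simp
  | insert a s ha ih => rw [Finset.sum_insert ha, Finset.prod_insert ha, AddChar.map_add_eq_mul, ih]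

theorem sum_biUnion_le' {α β : Type*} [DecidableEq β] [DecidableEq α] (s : Finset α)
    (t : α → Finset β) (f : β → ℝ) (hf : ∀ b, 0 ≤ f b) :
    ∑ b ∈ s.biUnion t, f b ≤ ∑ a ∈ s, ∑ b ∈ t a, f b := by
  induction s using Finset.induction_on with
  | empty => simp
  | insert a s ha ih =>
    rw [Finset.biUnion_insert, Finset.sum_insert ha]
    have h1 := Finset.sum_union_inter (s₁ := t a) (s₂ := s.biUnion t) (f := f)
    have h2 : 0 ≤ ∑ b ∈ t a ∩ s.biUnion t, f b := Finset.sum_nonneg fun _ _ => hf _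
    linarith

theorem fejF_eq' (L : ℕ) (k : ZMod q) : ((fejF q L k : ℝ) : ℂ) =
    ∑ u ∈ range L, ∑ v ∈ range L, ZMod.stdAddChar (k * ((v : ZMod q) - (u : ZMod q))) := by
  rw [fejF_eq, Finset.sum_comm]

/-- the weighted number of solutions -/
theorem count_eq (L : ℕ) (a γ : ι → ZMod q) :
    (q : ℂ) ^ (Fintype.card ι) * ∑ x : ZMod q, ∏ i, ∑ u ∈ range L, ∑ v ∈ range L,
      (if x * a i - γ i - ((u : ZMod q) - (v : ZMod q)) = 0 then (1 : ℂ) else 0) =
    ∑ k : ι → ZMod q, (∏ i, (ZMod.stdAddChar (-(k i * γ i)) * ((fejF q L (k i) : ℝ) : ℂ))) *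
      (if ∑ i, k i * a i = 0 then (q : ℂ) else 0) := by
  have h1 : ∀ x : ZMod q, ∀ i, (q : ℂ) * ∑ u ∈ range L, ∑ v ∈ range L,
      (if x * a i - γ i - ((u : ZMod q) - (v : ZMod q)) = 0 then (1 : ℂ) else 0) =
      ∑ k : ZMod q, ZMod.stdAddChar (x * (k * a i)) *
        (ZMod.stdAddChar (-(k * γ i)) * ((fejF q L k : ℝ) : ℂ)) := by
    intro x i
    have h2 : ∀ k : ZMod q, (ZMod.stdAddChar (x * (k * a i)) : ℂ) *
        (ZMod.stdAddChar (-(k * γ i)) * ((fejF q L k : ℝ) : ℂ)) =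
        ∑ u ∈ range L, ∑ v ∈ range L,
          ZMod.stdAddChar (k * (x * a i - γ i - ((u : ZMod q) - (v : ZMod q)))) := by
      intro k
      rw [fejF_eq', Finset.mul_sum, Finset.mul_sum]
      refine Finset.sum_congr rfl fun u _ => ?_
      rw [Finset.mul_sum, Finset.mul_sum]
      refine Finset.sum_congr rfl fun v _ => ?_
      rw [← AddChar.map_add_eq_mul, ← AddChar.map_add_eq_mul]
      congr 1
      ring
    simp_rw [h2]
    rw [Finset.mul_sum]
    rw [Finset.sum_comm]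
    refine Finset.sum_congr rfl fun u _ => ?_
    rw [Finset.mul_sum, Finset.sum_comm]
    refine Finset.sum_congr rfl fun v _ => ?_
    rw [sum_stdAddChar]
    split_ifs <;> simp
  have h3 : (q : ℂ) ^ (Fintype.card ι) = ∏ _i : ι, (q : ℂ) := by
    rw [Finset.prod_const, Finset.card_univ]
  rw [Finset.mul_sum]
  calc ∑ x : ZMod q, (q : ℂ) ^ (Fintype.card ι) * ∏ i, ∑ u ∈ range L, ∑ v ∈ range L,
      (if x * a i - γ i - ((u : ZMod q) - (v : ZMod q)) = 0 then (1 : ℂ) else 0)
      = ∑ x : ZMod q, ∏ i, ∑ k : ZMod q, ZMod.stdAddChar (x * (k * a i)) *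
        (ZMod.stdAddChar (-(k * γ i)) * ((fejF q L k : ℝ) : ℂ)) := by
        refine Finset.sum_congr rfl fun x _ => ?_
        rw [h3, ← Finset.prod_mul_distrib]
        exact Finset.prod_congr rfl fun i _ => h1 x i
    _ = ∑ x : ZMod q, ∑ k : ι → ZMod q, ∏ i, (ZMod.stdAddChar (x * (k i * a i)) *
        (ZMod.stdAddChar (-(k i * γ i)) * ((fejF q L (k i) : ℝ) : ℂ))) := by
        refine Finset.sum_congr rfl fun x _ => ?_
        rw [Finset.prod_univ_sum, Fintype.piFinset_univ]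
    _ = ∑ k : ι → ZMod q, ∑ x : ZMod q,
        (∏ i, (ZMod.stdAddChar (-(k i * γ i)) * ((fejF q L (k i) : ℝ) : ℂ))) *
          ZMod.stdAddChar (x * ∑ i, k i * a i) := by
        rw [Finset.sum_comm]
        refine Finset.sum_congr rfl fun k _ => Finset.sum_congr rfl fun x _ => ?_
        rw [Finset.prod_mul_distrib, mul_comm]
        congr 1
        rw [Finset.mul_sum, addChar_sum]
    _ = _ := by
        refine Finset.sum_congr rfl fun k _ => ?_
        rw [← Finset.mul_sum, sum_stdAddChar]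

theorem tail_prod (L H : ℕ) (hH : 1 ≤ H) (hL : L ≤ q) (i : ι) :
    ∑ k ∈ univ.filter (fun k : ι → ZMod q => H < (k i).valMinAbs.natAbs), ∏ j, fejF q L (k j)
      ≤ (q : ℝ) ^ 2 / (2 * H) * ((q : ℝ) * L) ^ (Fintype.card ι - 1) := by
  classical
  have h1 : univ.filter (fun k : ι → ZMod q => H < (k i).valMinAbs.natAbs) =
      Fintype.piFinset (fun j => if j = i then
        univ.filter (fun k : ZMod q => H < k.valMinAbs.natAbs) else univ) := by
    ext k
    rw [mem_filter, Fintype.mem_piFinset]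
    constructor
    · rintro ⟨-, h⟩ j
      by_cases hj : j = i
      · subst hj; simpa using h
      · simp [hj]
    · intro h
      have := h i
      simpa using this
  rw [h1, ← Finset.prod_univ_sum, ← Finset.mul_prod_erase univ _ (mem_univ i)]
  rw [if_pos rfl]
  have h2 : ∏ x ∈ univ.erase i, ∑ j ∈ (if x = i then
      univ.filter (fun k : ZMod q => H < k.valMinAbs.natAbs) else univ), fejF q L j =
      ((q : ℝ) * L) ^ (Fintype.card ι - 1) := by
    rw [Finset.prod_congr rfl (g := fun _ => (q : ℝ) * L)]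
    · rw [Finset.prod_const, Finset.card_erase_of_mem (mem_univ i), Finset.card_univ]
    · intro x hx
      rw [if_neg (Finset.ne_of_mem_erase hx), sum_fejF hL]
  rw [h2]
  gcongr
  exact sum_fejF_tail L H hH

/-- **Box hitting.** -/
theorem box_hit (L H : ℕ) (hH : 1 ≤ H) (hL : L ≤ q) (a γ : ι → ZMod q)
    (hrel : ∀ k : ι → ZMod q, (∀ i, (k i).valMinAbs.natAbs ≤ H) → ∑ i, k i * a i = 0 → k = 0)
    (hsize : (Fintype.card ι : ℝ) * ((q : ℝ) ^ 2 / (2 * H) *
      ((q : ℝ) * L) ^ (Fintype.card ι - 1)) < (L : ℝ) ^ (2 * Fintype.card ι)) :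
    ∃ x : ZMod q, ∀ i, ∃ u < L, ∃ v < L, x * a i = γ i + ((u : ZMod q) - (v : ZMod q)) := by
  classical
  by_contra hcon
  push Not at hcon
  have hq : (q : ℂ) ≠ 0 := by exact_mod_cast NeZero.ne q
  have h0 := count_eq L a γ
  have h1 : ∑ x : ZMod q, ∏ i, ∑ u ∈ range L, ∑ v ∈ range L,
      (if x * a i - γ i - ((u : ZMod q) - (v : ZMod q)) = 0 then (1 : ℂ) else 0) = 0 := by
    refine Finset.sum_eq_zero fun x _ => ?_
    obtain ⟨i, hi⟩ := hcon x
    refine Finset.prod_eq_zero (mem_univ i) ?_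
    refine Finset.sum_eq_zero fun u hu => Finset.sum_eq_zero fun v hv => ?_
    rw [mem_range] at hu hv
    rw [if_neg]
    intro h
    refine hi u hu v hv ?_
    linear_combination h
  rw [h1, mul_zero] at h0
  have h2 : (0 : ℂ) = ∑ k ∈ univ.filter (fun k : ι → ZMod q => ∑ i, k i * a i = 0),
      (∏ i, (ZMod.stdAddChar (-(k i * γ i)) * ((fejF q L (k i) : ℝ) : ℂ))) := by
    have h3 : (0 : ℂ) = (∑ k ∈ univ.filter (fun k : ι → ZMod q => ∑ i, k i * a i = 0),
      (∏ i, (ZMod.stdAddChar (-(k i * γ i)) * ((fejF q L (k i) : ℝ) : ℂ)))) * q := by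
      rw [h0, Finset.sum_mul, Finset.sum_filter]
      refine Finset.sum_congr rfl fun k _ => ?_
      split_ifs <;> simp
    rcases mul_eq_zero.1 h3.symm with h | h
    · exact h.symm
    · exact absurd h hq
  have hmem : (0 : ι → ZMod q) ∈ univ.filter (fun k : ι → ZMod q => ∑ i, k i * a i = 0) := by
    simp
  rw [← Finset.add_sum_erase _ _ hmem] at h2
  have h4 : (∏ i : ι, ((ZMod.stdAddChar (-((0 : ι → ZMod q) i * γ i)) : ℂ) *
      ((fejF q L ((0 : ι → ZMod q) i) : ℝ) : ℂ))) = ((((L : ℝ) ^ (2 * Fintype.card ι)) : ℝ) : ℂ) := by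
    simp only [Pi.zero_apply, zero_mul, neg_zero, AddChar.map_zero_eq_one, one_mul, fejF_zero]
    rw [Finset.prod_const, Finset.card_univ]
    push_cast
    rw [pow_mul]
  rw [h4] at h2
  have h5 : (L : ℝ) ^ (2 * Fintype.card ι) ≤
      ∑ k ∈ (univ.filter (fun k : ι → ZMod q => ∑ i, k i * a i = 0)).erase 0,
        ∏ i, fejF q L (k i) := by
    have h6 : ((((L : ℝ) ^ (2 * Fintype.card ι)) : ℝ) : ℂ) =
        -∑ k ∈ (univ.filter (fun k : ι → ZMod q => ∑ i, k i * a i = 0)).erase 0,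
          (∏ i, (ZMod.stdAddChar (-(k i * γ i)) * ((fejF q L (k i) : ℝ) : ℂ))) := by
      linear_combination -h2
    have h7 := congrArg norm h6
    rw [Complex.norm_real, norm_neg, Real.norm_of_nonneg (by positivity)] at h7
    rw [h7]
    refine (norm_sum_le _ _).trans (Finset.sum_le_sum fun k _ => ?_)
    rw [norm_prod]
    refine le_of_eq (Finset.prod_congr rfl fun i _ => ?_)
    rw [norm_mul, AddChar.norm_apply, one_mul, Complex.norm_real,
      Real.norm_of_nonneg (fejF_nonneg _ _)]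
  have h8 : (univ.filter (fun k : ι → ZMod q => ∑ i, k i * a i = 0)).erase 0 ⊆
      univ.biUnion fun i => univ.filter (fun k : ι → ZMod q => H < (k i).valMinAbs.natAbs) := by
    intro k hk
    rw [mem_erase, mem_filter] at hk
    rw [mem_biUnion]
    by_contra h9
    push Not at h9
    refine hk.1 (hrel k (fun i => ?_) hk.2.2)
    have := h9 i (mem_univ i)
    simpa using this
  have h9 : (L : ℝ) ^ (2 * Fintype.card ι) ≤ (Fintype.card ι : ℝ) * ((q : ℝ) ^ 2 / (2 * H) *
      ((q : ℝ) * L) ^ (Fintype.card ι - 1)) := by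
    calc (L : ℝ) ^ (2 * Fintype.card ι)
        ≤ ∑ k ∈ (univ.filter (fun k : ι → ZMod q => ∑ i, k i * a i = 0)).erase 0,
          ∏ i, fejF q L (k i) := h5
      _ ≤ ∑ k ∈ univ.biUnion fun i =>
            univ.filter (fun k : ι → ZMod q => H < (k i).valMinAbs.natAbs),
          ∏ i, fejF q L (k i) :=
          Finset.sum_le_sum_of_subset_of_nonneg h8 fun _ _ _ =>
            Finset.prod_nonneg fun _ _ => fejF_nonneg _ _
      _ ≤ ∑ i : ι, ∑ k ∈ univ.filter (fun k : ι → ZMod q => H < (k i).valMinAbs.natAbs),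
          ∏ i, fejF q L (k i) :=
          sum_biUnion_le' _ _ _ fun _ => Finset.prod_nonneg fun _ _ => fejF_nonneg _ _
      _ ≤ ∑ i : ι, ((q : ℝ) ^ 2 / (2 * H) * ((q : ℝ) * L) ^ (Fintype.card ι - 1)) :=
          Finset.sum_le_sum fun i _ => tail_prod L H hH hL i
      _ = _ := by rw [Finset.sum_const, Finset.card_univ, nsmul_eq_mul]
  linarith

end

end Pool.Agent.LibH27.Pack
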