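import Pool.Agent.Lib_helper27.Pack.Defs

/-!
# The lower bound
-/

namespace Pool.Agent.LibH27.Pack

open Finset

theorem gap_lower {n p q : ℕ} (hp : p.Prime) (hq : q.Prime) (hpq : p ≠ q) {s t : ℤ} (hst : s ≤ t)
    (h : ∀ z, ¬ (Hit n p s z ∧ Hit n q t z)) : (n : ℤ) - p * q ≤ t - s := by
  by_contra hcon
  push Not at hcon
  have hcop : IsCoprime (p : ℤ) (q : ℤ) := by
    rw [Nat.isCoprime_iff_coprime]
    exact (Nat.coprime_primes hp hq).2 hpq
  obtain ⟨x, y, hxy⟩ := hcop
  have hpos : (0 : ℤ) < p * q := by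
    have := hp.pos
    have := hq.pos
    positivity
  set z0 : ℤ := s * (y * q) + t * (x * p) with hz0
  set z : ℤ := t + ((z0 - t - 1) % (p * q)) + 1 with hz
  have h1 := Int.emod_nonneg (z0 - t - 1) hpos.ne'
  have h2 := Int.emod_lt_of_pos (z0 - t - 1) hpos
  have h3 := Int.mul_ediv_add_emod (z0 - t - 1) (p * q)
  have h4 : z = z0 - p * q * ((z0 - t - 1) / (p * q)) := by linarith
  apply h z
  refine ⟨⟨?_, ?_, ?_⟩, ?_, ?_, ?_⟩
  · have : z - s = p * (x * (t - s) - q * ((z0 - t - 1) / (p * q))) := by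
      rw [h4]
      have h5 : z0 = s + x * p * (t - s) := by
        rw [hz0]; linear_combination s * hxy
      linear_combination h5
    exact ⟨_, this⟩
  · linarith
  · linarith
  · have : z - t = q * (y * (s - t) - p * ((z0 - t - 1) / (p * q))) := by
      rw [h4]
      have h5 : z0 = t + y * q * (s - t) := by
        rw [hz0]; linear_combination t * hxy
      linear_combination h5
    exact ⟨_, this⟩
  · linarith
  · linarith

theorem spread_lower {n : ℕ} (s : ℕ → ℤ) (P : Finset ℕ) (hP : ∀ p ∈ P, p.Prime)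
    (h : ∀ p ∈ P, ∀ q ∈ P, p ≠ q → ∀ z, ¬ (Hit n p (s p) z ∧ Hit n q (s q) z))
    (b : ℤ) (hb : ∀ p ∈ P, b ≤ s p) :
    P = ∅ ∨ ∃ a ∈ P, (∀ p ∈ P, s p ≤ s a) ∧
      2 * ∑ p ∈ P, ((n : ℤ) - p * p) - 2 * n + a * a ≤ 2 * (s a - b) := by
  classical
  induction P using Finset.induction_on_max_value s with
  | empty => left; rfl
  | insert a P ha hmax ih =>
    right
    refine ⟨a, mem_insert_self _ _, ?_, ?_⟩
    · intro p hp
      rcases mem_insert.1 hp with rfl | hp
      · exact le_rfl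
      · exact hmax p hp
    · rw [Finset.sum_insert ha]
      rcases ih (fun p hp => hP p (mem_insert_of_mem hp))
        (fun p hp q hq => h p (mem_insert_of_mem hp) q (mem_insert_of_mem hq))
        (fun p hp => hb p (mem_insert_of_mem hp)) with h1 | ⟨c, hc, h1, h2⟩
      · subst h1
        simp only [Finset.sum_empty, add_zero]
        have h3 := hb a (mem_insert_self _ _)
        have h4 : (0 : ℤ) ≤ (a : ℤ) * a := by positivity
        linarith
      · have hne : c ≠ a := fun h => ha (h ▸ hc)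
        have h3 := gap_lower (hP c (mem_insert_of_mem hc)) (hP a (mem_insert_self _ _)) hne
          (hmax c hc) (h c (mem_insert_of_mem hc) a (mem_insert_self _ _) hne)
        have h4 : 2 * ((c : ℤ) * a) ≤ c * c + a * a := by nlinarith [sq_nonneg ((c : ℤ) - a)]
        linarith

theorem lower_bound {n m : ℕ} (h : Packs n n m) (P : Finset ℕ)
    (hP : ∀ p ∈ P, p.Prime ∧ p * p ≤ n) : ∑ p ∈ P, ((n : ℤ) - p * p) ≤ m + 2 * n := by
  classical
  obtain ⟨s, h1, h2⟩ := h
  have hmem : ∀ p ∈ P, p ∈ Finset.Icc 1 n := by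
    intro p hp
    obtain ⟨h3, h4⟩ := hP p hp
    rw [Finset.mem_Icc]
    exact ⟨h3.one_lt.le, by nlinarith [h3.one_lt]⟩
  have hself : ∀ p ∈ P, (p : ℤ) ∈ mults n p := by
    intro p hp
    have := Finset.mem_Icc.1 (hmem p hp)
    exact ⟨1, le_rfl, by omega, by simp⟩
  rcases spread_lower (n := n) s P (fun p hp => (hP p hp).1) (fun p hp q hq hpq z hz => by
    rw [hit_iff (Finset.mem_Icc.1 (hmem p hp)).1, hit_iff (Finset.mem_Icc.1 (hmem q hq)).1] at hz
    exact h2 p (hmem p hp) q (hmem q hq) hpq _ hz.1 _ hz.2 (by ring)) (-(n : ℤ)) (fun p hp => by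
      have h3 := (h1 p (hmem p hp) _ (hself p hp)).1
      have h4 := (Finset.mem_Icc.1 (hmem p hp)).2
      omega) with h3 | ⟨a, ha, -, h3⟩
  · subst h3
    simp only [Finset.sum_empty]
    positivity
  · have h4 := (h1 a (hmem a ha) _ (hself a ha)).2
    have h5 : (0 : ℤ) ≤ (a : ℤ) * a := by positivity
    have h6 : (0 : ℤ) ≤ (a : ℤ) := by positivity
    linarith

end Pool.Agent.LibH27.Pack
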