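import Pool.Agent.Lib_helper27.Pack.Upper
import Pool.Agent.Lib_helper27.Pack.Lower
import Pool.Agent.Lib_helper27.Pack.BlockAsymp

/-!
# `m(n) ~ (4/3) n^{3/2} / log n`
-/

namespace Pool.Agent.LibH27.Pack

open Finset Filter Topology

/-! ### elementary limits -/

theorem tend_rpow {r : ℝ} (hr : 0 < r) :
    Tendsto (fun n : ℕ => (n : ℝ) ^ (-r)) atTop (𝓝 0) :=
  (tendsto_rpow_neg_atTop hr).comp tendsto_natCast_atTop_atTop

theorem tend_log_rpow {r : ℝ} (hr : 0 < r) :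
    Tendsto (fun n : ℕ => Real.log n * (n : ℝ) ^ (-r)) atTop (𝓝 0) := by
  have h1 := (isLittleO_log_rpow_atTop hr).tendsto_div_nhds_zero
  have h2 := h1.comp tendsto_natCast_atTop_atTop (α := ℕ)
  refine h2.congr fun n => ?_
  simp only [Function.comp]
  rw [Real.rpow_neg (Nat.cast_nonneg _), div_eq_mul_inv]

theorem tend_log_sqrt : Tendsto (fun n : ℕ => Real.log n / Real.sqrt n) atTop (𝓝 0) := by
  refine (tend_log_rpow (r := 1 / 2) (by norm_num)).congr fun n => ?_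
  rw [Real.rpow_neg (Nat.cast_nonneg _), ← Real.sqrt_eq_rpow, div_eq_mul_inv]

theorem smallP_tendsto (J : ℕ) :
    Tendsto (fun n : ℕ => ((smallP J n).card : ℝ) * Real.log n / Real.sqrt n) atTop
      (𝓝 (2 * (1 / J))) := by
  refine (pi_sqrt (1 / J) (by positivity)).congr fun n => ?_
  unfold smallP
  rw [card_primes_Ioc _ _ (Nat.zero_le _)]
  simp

/-- the cofactor bound -/
noncomputable def Mn (e n : ℕ) : ℕ := ⌊(n : ℝ) ^ (1 / (16 * e) : ℝ)⌋₊

theorem Mn_le (e n : ℕ) : (Mn e n : ℝ) ≤ (n : ℝ) ^ (1 / (16 * e) : ℝ) :=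
  Nat.floor_le (by positivity)

theorem le_Mn {e n : ℕ} (hn : 1 ≤ n) : (n : ℝ) ^ (1 / (16 * e) : ℝ) / 2 ≤ Mn e n := by
  have hn' : (1 : ℝ) ≤ n := by exact_mod_cast hn
  have h1 : (1 : ℝ) ≤ (n : ℝ) ^ (1 / (16 * e) : ℝ) := Real.one_le_rpow hn' (by positivity)
  have h2 := Nat.lt_floor_add_one ((n : ℝ) ^ (1 / (16 * e) : ℝ))
  have h3 : (1 : ℝ) ≤ Mn e n := by
    have : 1 ≤ Mn e n := Nat.le_floor (by simpa using h1)
    exact_mod_cast this
  unfold Mn at *
  linarith

theorem eventually_Mn (e g : ℕ) (he : 1 ≤ e) :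
    ∀ᶠ n : ℕ in atTop, (g : ℝ) * (Mn e n + 1) ^ (4 * e) ≤ Real.sqrt n := by
  have h1 : ∀ᶠ n : ℕ in atTop, (n : ℝ) ^ (-(1 / 4 : ℝ)) < 1 / (g * 2 ^ (4 * e) + 1) := by
    refine (tend_rpow (r := 1 / 4) (by norm_num)).eventually_lt_const (by positivity)
  filter_upwards [h1, eventually_ge_atTop 1] with n h2 hn
  have hn' : (1 : ℝ) ≤ n := by exact_mod_cast hn
  have hn0 : (0 : ℝ) < n := by linarith
  have her : (0 : ℝ) < e := by exact_mod_cast he
  have h3 : (1 : ℝ) ≤ (n : ℝ) ^ (1 / (16 * e) : ℝ) := Real.one_le_rpow hn' (by positivity)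
  have h4 : ((Mn e n : ℝ) + 1) ≤ 2 * (n : ℝ) ^ (1 / (16 * e) : ℝ) := by
    linarith [Mn_le e n]
  have h5 : ((Mn e n : ℝ) + 1) ^ (4 * e) ≤ 2 ^ (4 * e) * (n : ℝ) ^ (1 / 4 : ℝ) := by
    calc ((Mn e n : ℝ) + 1) ^ (4 * e) ≤ (2 * (n : ℝ) ^ (1 / (16 * e) : ℝ)) ^ (4 * e) := by
          gcongr
      _ = 2 ^ (4 * e) * ((n : ℝ) ^ (1 / (16 * e) : ℝ)) ^ (4 * e) := mul_pow _ _ _
      _ = 2 ^ (4 * e) * (n : ℝ) ^ (1 / 4 : ℝ) := by
          congr 1
          rw [← Real.rpow_natCast, ← Real.rpow_mul hn0.le]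
          congr 1
          push_cast
          field_simp
          norm_num
  have h6 : (g : ℝ) * 2 ^ (4 * e) ≤ (n : ℝ) ^ (1 / 4 : ℝ) := by
    rw [Real.rpow_neg hn0.le, inv_lt_comm₀ (by positivity) (by positivity)] at h2
    rw [one_div, inv_inv] at h2
    linarith
  calc (g : ℝ) * (Mn e n + 1) ^ (4 * e) ≤ g * (2 ^ (4 * e) * (n : ℝ) ^ (1 / 4 : ℝ)) := by gcongr
    _ = (g * 2 ^ (4 * e)) * (n : ℝ) ^ (1 / 4 : ℝ) := by ring
    _ ≤ (n : ℝ) ^ (1 / 4 : ℝ) * (n : ℝ) ^ (1 / 4 : ℝ) := by gcongr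
    _ = Real.sqrt n := by
      rw [← Real.rpow_add hn0, Real.sqrt_eq_rpow]
      norm_num

theorem packNum_le {n L : ℕ} (h : PackF n (Set.Icc 1 n) L) : packNum n ≤ L :=
  Nat.sInf_le h.packs

theorem packs_packNum (n : ℕ) : Packs n n (packNum n) := by
  have h1 : PackF n (⋃ d ∈ Finset.Icc 1 n, {d}) (∑ d ∈ Finset.Icc 1 n, n) :=
    PackF.iUnion _ _ _ fun d _ => PackF.single n d
  have h2 : PackF n (Set.Icc 1 n) (∑ d ∈ Finset.Icc 1 n, n) := by
    refine h1.mono ?_ le_rfl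
    rintro d ⟨hd1, hd2⟩
    simp only [Set.mem_iUnion]
    exact ⟨d, Finset.mem_Icc.2 ⟨hd1, hd2⟩, rfl⟩
  exact Nat.sInf_mem (s := {m | Packs n n m}) ⟨_, h2.packs⟩

/-! ### upper bound -/

theorem upper_limit (J e : ℕ) (hJ : 1 ≤ J) (he : 1 ≤ e) :
    ∃ u : ℕ → ℝ, Tendsto u atTop
        (𝓝 (2 * (1 / J) + ∑ k ∈ Finset.Ico 1 J, 2 / (J : ℝ) * cblock J k e)) ∧
      ∀ᶠ n : ℕ in atTop, (packNum n : ℝ) * Real.log n / (n * Real.sqrt n) ≤ u n := by
  classical
  have hJr : (1 : ℝ) ≤ J := by exact_mod_cast hJ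
  have her : (1 : ℝ) ≤ e := by exact_mod_cast he
  set γ : ℝ := 1 / (16 * e) with hγ
  have hγ0 : 0 < γ := by positivity
  have hγ1 : γ ≤ 1 / 16 := by
    rw [hγ]
    gcongr
    linarith
  have hb : ∀ k : ℕ, ∃ C g : ℕ, 1 ≤ k → ∀ᶠ n : ℕ in atTop, ∀ M : ℕ,
      (g : ℝ) * (M + 1) ^ (4 * e) ≤ Real.sqrt n →
      ∀ P : Finset ℕ,
        (∀ q ∈ P, q.Prime ∧ (k : ℝ) * Real.sqrt n / J ≤ q ∧ (q : ℝ) ≤ (k + 1) * Real.sqrt n / J) →
        PackF n {d | ∃ q ∈ P, ∃ m, 1 ≤ m ∧ m ≤ M ∧ d = m * q}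
          (P.card * ⌈cblock J k e * n⌉₊ + C * n) := by
    intro k
    by_cases hk : 1 ≤ k
    · obtain ⟨C, g, h⟩ := block_asymp J k e hJ hk he
      exact ⟨C, g, fun _ => h⟩
    · exact ⟨0, 0, fun h => absurd h hk⟩
  choose C g hCg using hb
  -- eventually all blocks can be packed
  have hblocks : ∀ᶠ n : ℕ in atTop, ∀ k ∈ Finset.Ico 1 J,
      PackF n {d | ∃ q ∈ blockP J k n, ∃ m, 1 ≤ m ∧ m ≤ Mn e n ∧ d = m * q}
        ((blockP J k n).card * ⌈cblock J k e * n⌉₊ + C k * n) := by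
    rw [Filter.eventually_all_finset]
    intro k hk
    rw [Finset.mem_Ico] at hk
    filter_upwards [hCg k hk.1, eventually_Mn e (g k) he] with n h1 h2
    refine h1 _ h2 _ fun q hq => ?_
    rw [mem_blockP] at hq
    refine ⟨hq.1, ?_, ?_⟩
    · calc (k : ℝ) * Real.sqrt n / J = (k : ℝ) / J * Real.sqrt n := by ring
        _ ≤ q := hq.2.1.le
    · calc (q : ℝ) ≤ ((k : ℝ) + 1) / J * Real.sqrt n := hq.2.2
        _ = (k + 1) * Real.sqrt n / J := by ring
  -- the majorant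
  refine ⟨fun n => 4 * J * (((n : ℝ) ^ (-(γ / 2)) + Real.log n * (n : ℝ) ^ (-(γ / 2))) *
      (Real.log n * (n : ℝ) ^ (-(γ / 2)))) +
    (Real.log n * (n : ℝ) ^ (-(7 / 16 : ℝ)) + 3 * (Real.log n / Real.sqrt n)) +
    ((smallP J n).card : ℝ) * Real.log n / Real.sqrt n * (1 + (n : ℝ) ^ (-(7 / 16 : ℝ))) +
    ∑ k ∈ Finset.Ico 1 J, (((blockP J k n).card : ℝ) * Real.log n / Real.sqrt n *
      (cblock J k e + (n : ℝ)⁻¹) + C k * (Real.log n / Real.sqrt n)), ?_, ?_⟩
  · have t1 := tend_rpow (r := γ / 2) (by positivity)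
    have t2 := tend_log_rpow (r := γ / 2) (by positivity)
    have t3 := tend_log_rpow (r := 7 / 16) (by norm_num)
    have t4 := tend_rpow (r := 7 / 16) (by norm_num)
    have t5 := smallP_tendsto J
    have t6 : Tendsto (fun n : ℕ => ((n : ℝ))⁻¹) atTop (𝓝 0) :=
      tendsto_inv_atTop_zero.comp tendsto_natCast_atTop_atTop
    have t7 : ∀ k ∈ Finset.Ico 1 J, Tendsto (fun n : ℕ =>
        ((blockP J k n).card : ℝ) * Real.log n / Real.sqrt n *
        (cblock J k e + (n : ℝ)⁻¹) + C k * (Real.log n / Real.sqrt n)) atTop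
        (𝓝 (2 / (J : ℝ) * (cblock J k e + 0) + C k * 0)) := fun k _ =>
      ((card_blockP_tendsto J k hJ).mul (t6.const_add _)).add (tend_log_sqrt.const_mul _)
    have t8 := tendsto_finsetSum (Finset.Ico 1 J) t7
    have t9 := ((((t1.add t2).mul t2).const_mul (4 * (J : ℝ))).add
      (t3.add (tend_log_sqrt.const_mul 3))).add (t5.mul (t4.const_add 1))
    have t10 := t9.add t8
    simp only [add_zero, mul_zero, zero_add, mul_one] at t10
    exact t10
  · filter_upwards [hblocks, eventually_ge_atTop 2, eventually_le_sqrt (2 * J)] with n hbl hn hsJ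
    have hn1 : 1 ≤ n := by omega
    have hnr : (1 : ℝ) < n := by exact_mod_cast hn
    have hn0 : (0 : ℝ) < n := by linarith
    have hlog : 0 < Real.log n := Real.log_pos hnr
    set s : ℝ := Real.sqrt n with hs
    have hs0 : 0 < s := Real.sqrt_pos.2 hn0
    have hss : s * s = n := Real.mul_self_sqrt hn0.le
    have hsr : s = (n : ℝ) ^ (1 / 2 : ℝ) := Real.sqrt_eq_rpow _
    set M := Mn e n with hM
    have hM1 : (M : ℝ) ≤ (n : ℝ) ^ γ := Mn_le e n
    have hM2 : (n : ℝ) ^ γ / 2 ≤ M := le_Mn hn1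
    have hM3 : (1 : ℝ) ≤ M := by
      have h1 : (1 : ℝ) ≤ (n : ℝ) ^ γ := Real.one_le_rpow hnr.le hγ0.le
      have : 1 ≤ M := Nat.le_floor (by rw [Nat.cast_one]; exact h1)
      exact_mod_cast this
    set Y : ℕ := ⌊(M : ℝ) * (s / J)⌋₊ with hY
    have hY1 : (Y : ℝ) ≤ M * (s / J) := Nat.floor_le (by positivity)
    have hY2 : (M : ℝ) * (s / J) / 2 ≤ Y := by
      have h1 : (M : ℝ) * (s / J) - 1 < Y := Nat.sub_one_lt_floor _
      have h2 : 2 ≤ (M : ℝ) * (s / J) := by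
        calc (2 : ℝ) ≤ s / J := by rw [le_div_iff₀ (by linarith)]; exact hsJ
          _ ≤ M * (s / J) := le_mul_of_one_le_left (by positivity) hM3
      linarith
    have hYpos : (0 : ℝ) < Y := lt_of_lt_of_le (by positivity) hY2
    have hYN : 1 ≤ Y := by exact_mod_cast hYpos
    set L1 : ℕ := ⌈(n : ℝ) * (1 + Real.log n) * (n / Y) + n⌉₊ with hL1
    have hfin := upper_finite n J M Y L1 _ hn1 hJ hY1 (PackF.large n Y L1 hYN (Nat.le_ceil _)) hbl
    have hle := packNum_le hfin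
    have hle' : (packNum n : ℝ) ≤ L1 + (M * n + (n + ((smallP J n).card * (n + Y) +
        ∑ k ∈ Finset.Ico 1 J, ((blockP J k n).card * (⌈cblock J k e * n⌉₊ : ℝ) + C k * n)))) := by
      exact_mod_cast hle
    have hL1' : (L1 : ℝ) ≤ (n : ℝ) * (1 + Real.log n) * (n / Y) + n + 1 :=
      (Nat.ceil_lt_add_one (by positivity)).le
    -- the factor
    have hfac : 0 < Real.log n / (n * s) := by positivity
    have e1 : ((n : ℝ) * (1 + Real.log n) * (n / Y)) * (Real.log n / (n * s)) ≤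
        4 * J * (((n : ℝ) ^ (-(γ / 2)) + Real.log n * (n : ℝ) ^ (-(γ / 2))) *
          (Real.log n * (n : ℝ) ^ (-(γ / 2)))) := by
      have h1 : (n : ℝ) / Y ≤ 4 * J * s * (n : ℝ) ^ (-γ) := by
        rw [div_le_iff₀ hYpos]
        have h2 : (n : ℝ) ^ γ / 2 * (s / J) / 2 ≤ Y := le_trans (by gcongr) hY2
        have h3 : (n : ℝ) ^ (-γ) * (n : ℝ) ^ γ = 1 := by
          rw [← Real.rpow_add hn0]; simp
        have h4 : (0 : ℝ) ≤ (n : ℝ) ^ (-γ) := by positivity
        calc (n : ℝ) = s * s * ((n : ℝ) ^ (-γ) * (n : ℝ) ^ γ) := by rw [h3, hss, mul_one]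
          _ = 4 * J * s * (n : ℝ) ^ (-γ) * ((n : ℝ) ^ γ / 2 * (s / J) / 2) := by
              field_simp
              norm_num
          _ ≤ 4 * J * s * (n : ℝ) ^ (-γ) * Y := by gcongr
      have h5 : (n : ℝ) ^ (-γ) = (n : ℝ) ^ (-(γ / 2)) * (n : ℝ) ^ (-(γ / 2)) := by
        rw [← Real.rpow_add hn0]
        congr 1
        ring
      calc ((n : ℝ) * (1 + Real.log n) * (n / Y)) * (Real.log n / (n * s))
          ≤ ((n : ℝ) * (1 + Real.log n) * (4 * J * s * (n : ℝ) ^ (-γ))) *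
            (Real.log n / (n * s)) := by gcongr
        _ = 4 * J * ((1 + Real.log n) * Real.log n * (n : ℝ) ^ (-γ)) := by
            field_simp
        _ = _ := by rw [h5]; ring
    have e2 : ((n : ℝ) + 1 + M * n + n) * (Real.log n / (n * s)) ≤
        Real.log n * (n : ℝ) ^ (-(7 / 16 : ℝ)) + 3 * (Real.log n / s) := by
      have h1 : (M : ℝ) * (Real.log n / s) ≤ Real.log n * (n : ℝ) ^ (-(7 / 16 : ℝ)) := by
        have h2 : (M : ℝ) ≤ (n : ℝ) ^ (1 / 16 : ℝ) :=
          hM1.trans (Real.rpow_le_rpow_of_exponent_le hnr.le hγ1)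
        calc (M : ℝ) * (Real.log n / s) ≤ (n : ℝ) ^ (1 / 16 : ℝ) * (Real.log n / s) := by gcongr
          _ = Real.log n * ((n : ℝ) ^ (1 / 16 : ℝ) * s⁻¹) := by ring
          _ = Real.log n * (n : ℝ) ^ (-(7 / 16 : ℝ)) := by
              rw [hsr, ← Real.rpow_neg hn0.le, ← Real.rpow_add hn0]
              norm_num
      calc ((n : ℝ) + 1 + M * n + n) * (Real.log n / (n * s))
          ≤ ((n : ℝ) + n + M * n + n) * (Real.log n / (n * s)) := by gcongr
        _ = M * (Real.log n / s) + 3 * (Real.log n / s) := by field_simp; ring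
        _ ≤ _ := by gcongr
    have e3 : ((smallP J n).card * ((n : ℝ) + Y)) * (Real.log n / (n * s)) ≤
        ((smallP J n).card : ℝ) * Real.log n / s * (1 + (n : ℝ) ^ (-(7 / 16 : ℝ))) := by
      have h1 : (Y : ℝ) / n ≤ (n : ℝ) ^ (-(7 / 16 : ℝ)) := by
        have h2 : (M : ℝ) ≤ (n : ℝ) ^ (1 / 16 : ℝ) :=
          hM1.trans (Real.rpow_le_rpow_of_exponent_le hnr.le hγ1)
        calc (Y : ℝ) / n ≤ (M * (s / J)) / n := by gcongr
          _ ≤ ((n : ℝ) ^ (1 / 16 : ℝ) * (s / 1)) / n := by gcongr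
          _ = (n : ℝ) ^ (1 / 16 : ℝ) * s⁻¹ := by
              rw [← hss]; field_simp
          _ = (n : ℝ) ^ (-(7 / 16 : ℝ)) := by
              rw [hsr, ← Real.rpow_neg hn0.le, ← Real.rpow_add hn0]
              norm_num
      calc ((smallP J n).card * ((n : ℝ) + Y)) * (Real.log n / (n * s))
          = ((smallP J n).card : ℝ) * Real.log n / s * (1 + Y / n) := by
            field_simp
        _ ≤ _ := by gcongr
    have e4 : ∀ k ∈ Finset.Ico 1 J,
        ((blockP J k n).card * (⌈cblock J k e * n⌉₊ : ℝ) + C k * n) * (Real.log n / (n * s)) ≤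
        ((blockP J k n).card : ℝ) * Real.log n / s *
          (cblock J k e + (n : ℝ)⁻¹) + C k * (Real.log n / s) := by
      intro k _
      have hc0 : 0 ≤ cblock J k e := by
        unfold cblock
        positivity
      have h1 : (⌈cblock J k e * n⌉₊ : ℝ) ≤ cblock J k e * n + 1 :=
        (Nat.ceil_lt_add_one (by positivity)).le
      calc ((blockP J k n).card * (⌈cblock J k e * n⌉₊ : ℝ) + C k * n) * (Real.log n / (n * s))
          ≤ ((blockP J k n).card * (cblock J k e * n + 1) + C k * n) *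
            (Real.log n / (n * s)) := by gcongr
        _ = _ := by field_simp
    calc (packNum n : ℝ) * Real.log n / (n * s) = (packNum n : ℝ) * (Real.log n / (n * s)) := by
          ring
      _ ≤ (((n : ℝ) * (1 + Real.log n) * (n / Y) + n + 1) + (M * n + (n +
          ((smallP J n).card * (n + Y) + ∑ k ∈ Finset.Ico 1 J,
            ((blockP J k n).card * (⌈cblock J k e * n⌉₊ : ℝ) + C k * n))))) *
            (Real.log n / (n * s)) := by
          gcongr
          refine hle'.trans ?_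
          gcongr
      _ = ((n : ℝ) * (1 + Real.log n) * (n / Y)) * (Real.log n / (n * s)) +
          ((n : ℝ) + 1 + M * n + n) * (Real.log n / (n * s)) +
          ((smallP J n).card * ((n : ℝ) + Y)) * (Real.log n / (n * s)) +
          ∑ k ∈ Finset.Ico 1 J, ((blockP J k n).card * (⌈cblock J k e * n⌉₊ : ℝ) + C k * n) *
            (Real.log n / (n * s)) := by
          rw [← Finset.sum_mul]
          ring
      _ ≤ _ := by
          refine add_le_add (add_le_add (add_le_add e1 e2) e3) (Finset.sum_le_sum e4)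

/-! ### lower bound -/

theorem lower_limit (J : ℕ) (hJ : 1 ≤ J) :
    ∃ u : ℕ → ℝ, Tendsto u atTop
        (𝓝 (∑ k ∈ Finset.range J, 2 / (J : ℝ) * (1 - (((k : ℝ) + 1) / J) ^ 2))) ∧
      ∀ᶠ n : ℕ in atTop, u n ≤ (packNum n : ℝ) * Real.log n / (n * Real.sqrt n) := by
  classical
  have hJr : (1 : ℝ) ≤ J := by exact_mod_cast hJ
  refine ⟨fun n => ∑ k ∈ Finset.range J, ((blockP J k n).card : ℝ) * Real.log n / Real.sqrt n *
    (1 - (((k : ℝ) + 1) / J) ^ 2) - 2 * (Real.log n / Real.sqrt n), ?_, ?_⟩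
  · have t1 : ∀ k ∈ Finset.range J, Tendsto (fun n : ℕ =>
        ((blockP J k n).card : ℝ) * Real.log n / Real.sqrt n * (1 - (((k : ℝ) + 1) / J) ^ 2))
        atTop (𝓝 (2 / (J : ℝ) * (1 - (((k : ℝ) + 1) / J) ^ 2))) := fun k _ =>
      (card_blockP_tendsto J k hJ).mul_const _
    have t2 := (tendsto_finsetSum (Finset.range J) t1).sub (tend_log_sqrt.const_mul 2)
    rw [mul_zero, sub_zero] at t2
    exact t2
  · filter_upwards [eventually_ge_atTop 2] with n hn
    have hnr : (1 : ℝ) < n := by exact_mod_cast hn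
    have hn0 : (0 : ℝ) < n := by linarith
    have hlog : 0 < Real.log n := Real.log_pos hnr
    set s : ℝ := Real.sqrt n with hs
    have hs0 : 0 < s := Real.sqrt_pos.2 hn0
    have hss : s * s = n := Real.mul_self_sqrt hn0.le
    have hb : ∀ k ∈ Finset.range J, ∀ p ∈ blockP J k n,
        (p : ℝ) * p ≤ (((k : ℝ) + 1) / J) ^ 2 * n := by
      intro k _ p hp
      rw [mem_blockP] at hp
      calc (p : ℝ) * p ≤ (((k : ℝ) + 1) / J * s) * (((k : ℝ) + 1) / J * s) :=
            mul_le_mul hp.2.2 hp.2.2 (by positivity) (by positivity)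
        _ = _ := by rw [← hss]; ring
    have hk1 : ∀ k ∈ Finset.range J, (((k : ℝ) + 1) / J) ^ 2 ≤ 1 := by
      intro k hk
      rw [Finset.mem_range] at hk
      have : ((k : ℝ) + 1) / J ≤ 1 := by
        rw [div_le_one (by linarith)]
        exact_mod_cast hk
      exact pow_le_one₀ (by positivity) this
    have h1 := lower_bound (packs_packNum n) ((Finset.range J).biUnion fun k => blockP J k n)
      (by
        intro p hp
        rw [Finset.mem_biUnion] at hp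
        obtain ⟨k, hk, hpk⟩ := hp
        refine ⟨(mem_blockP.1 hpk).1, ?_⟩
        have h2 : (p : ℝ) * p ≤ n := by
          refine (hb k hk p hpk).trans ?_
          calc (((k : ℝ) + 1) / J) ^ 2 * n ≤ 1 * n := by gcongr; exact hk1 k hk
            _ = n := one_mul _
        exact_mod_cast h2)
    have hdisj : Set.PairwiseDisjoint (↑(Finset.range J)) fun k => blockP J k n := by
      have key : ∀ j k : ℕ, j < k → Disjoint (blockP J j n) (blockP J k n) := by
        intro j k hjk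
        rw [Finset.disjoint_left]
        intro p hp hp'
        rw [mem_blockP] at hp hp'
        have h2 : ((j : ℝ) + 1) / J * s ≤ (k : ℝ) / J * s := by
          have : (j : ℝ) + 1 ≤ k := by exact_mod_cast hjk
          gcongr
        linarith [hp.2.2, hp'.2.1]
      intro j _ k _ hjk
      rcases lt_or_gt_of_ne hjk with h | h
      · exact key j k h
      · exact (key k j h).symm
    rw [Finset.sum_biUnion hdisj] at h1
    have h2 : (∑ k ∈ Finset.range J, ∑ p ∈ blockP J k n, ((n : ℝ) - p * p)) ≤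
        packNum n + 2 * n := by exact_mod_cast h1
    have h3 : ∑ k ∈ Finset.range J, ((blockP J k n).card : ℝ) *
        ((1 - (((k : ℝ) + 1) / J) ^ 2) * n) ≤
        ∑ k ∈ Finset.range J, ∑ p ∈ blockP J k n, ((n : ℝ) - p * p) := by
      refine Finset.sum_le_sum fun k hk => ?_
      rw [← nsmul_eq_mul]
      refine Finset.card_nsmul_le_sum _ _ _ fun p hp => ?_
      have := hb k hk p hp
      linarith
    have hfac : 0 < Real.log n / (n * s) := by positivity
    calc ∑ k ∈ Finset.range J, ((blockP J k n).card : ℝ) * Real.log n / s *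
          (1 - (((k : ℝ) + 1) / J) ^ 2) - 2 * (Real.log n / s)
        = (∑ k ∈ Finset.range J, ((blockP J k n).card : ℝ) *
            ((1 - (((k : ℝ) + 1) / J) ^ 2) * n) - 2 * n) * (Real.log n / (n * s)) := by
          rw [sub_mul, Finset.sum_mul]
          congr 1
          · refine Finset.sum_congr rfl fun k _ => ?_
            field_simp
          · field_simp
      _ ≤ (packNum n : ℝ) * (Real.log n / (n * s)) := by
          gcongr
          linarith
      _ = (packNum n : ℝ) * Real.log n / (n * s) := by ring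

/-! ### sums of squares -/

theorem sum_sq_range (J : ℕ) : ∑ k ∈ Finset.range J, (k : ℝ) ^ 2 =
    ((J : ℝ) - 1) * J * (2 * J - 1) / 6 := by
  induction J with
  | zero => simp
  | succ J ih =>
    rw [Finset.sum_range_succ, ih]
    push_cast
    ring

theorem sum_sq_range' (J : ℕ) : ∑ k ∈ Finset.range J, ((k : ℝ) + 1) ^ 2 =
    (J : ℝ) * (J + 1) * (2 * J + 1) / 6 := by
  induction J with
  | zero => simp
  | succ J ih =>
    rw [Finset.sum_range_succ, ih]
    push_cast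
    ring

theorem upper_const (J e : ℕ) (hJ : 1 ≤ J) (he : 1 ≤ e) :
    2 * (1 / (J : ℝ)) + ∑ k ∈ Finset.Ico 1 J, 2 / (J : ℝ) * cblock J k e ≤
      4 / 3 + 2 / J + 2 / e := by
  have hJr : (1 : ℝ) ≤ J := by exact_mod_cast hJ
  have her : (1 : ℝ) ≤ e := by exact_mod_cast he
  have h1 : ∑ k ∈ Finset.Ico 1 J, 2 / (J : ℝ) * cblock J k e ≤
      ∑ k ∈ Finset.range J, 2 / (J : ℝ) * (1 - ((k : ℝ) / J) ^ 2 + 1 / e) - 2 / J := by
    have h2 : Finset.range J = insert 0 (Finset.Ico 1 J) := by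
      ext x
      simp only [Finset.mem_range, Finset.mem_insert, Finset.mem_Ico]
      omega
    rw [h2, Finset.sum_insert (by simp)]
    have h3 : ∑ k ∈ Finset.Ico 1 J, 2 / (J : ℝ) * cblock J k e =
        ∑ k ∈ Finset.Ico 1 J, 2 / (J : ℝ) * (1 - ((k : ℝ) / J) ^ 2 + 1 / e) := by
      refine Finset.sum_congr rfl fun k hk => ?_
      rw [Finset.mem_Ico] at hk
      unfold cblock
      rw [max_eq_left]
      have h4 : (k : ℝ) / J ≤ 1 := by
        rw [div_le_one (by linarith)]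
        exact_mod_cast hk.2.le
      have h5 : ((k : ℝ) / J) ^ 2 ≤ 1 := pow_le_one₀ (by positivity) h4
      linarith
    rw [h3]
    have h6 : (0 : ℝ) ≤ 2 / J * (1 / e) := by positivity
    simp only [Nat.cast_zero, zero_div, ne_eq, OfNat.ofNat_ne_zero, not_false_eq_true, zero_pow,
      sub_zero]
    nlinarith
  have h2 : ∑ k ∈ Finset.range J, 2 / (J : ℝ) * (1 - ((k : ℝ) / J) ^ 2 + 1 / e) =
      2 + 2 / e - 2 / (J : ℝ) ^ 3 * (((J : ℝ) - 1) * J * (2 * J - 1) / 6) := by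
    rw [← sum_sq_range, Finset.mul_sum]
    have h3 : ∀ k ∈ Finset.range J, 2 / (J : ℝ) * (1 - ((k : ℝ) / J) ^ 2 + 1 / e) =
        2 / J * (1 + 1 / e) - 2 / (J : ℝ) ^ 3 * (k : ℝ) ^ 2 := by
      intro k _
      field_simp
      ring
    rw [Finset.sum_congr rfl h3, Finset.sum_sub_distrib, Finset.sum_const, Finset.card_range,
      nsmul_eq_mul]
    congr 1
    field_simp
  have h3 : 2 / (J : ℝ) ^ 3 * (((J : ℝ) - 1) * J * (2 * J - 1) / 6) =
      2 / 3 - 1 / J + 1 / (3 * (J : ℝ) ^ 2) := by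
    field_simp
    ring
  have h4 : (0 : ℝ) ≤ 1 / (3 * (J : ℝ) ^ 2) := by positivity
  have h5 : 2 * (1 / (J : ℝ)) = 2 / J := by ring
  have h6 : (0 : ℝ) ≤ 1 / J := by positivity
  have h7 : (2 : ℝ) / J = 2 * (1 / J) := by ring
  rw [h2, h3] at h1
  rw [h5]
  linarith

theorem lower_const (J : ℕ) (hJ : 1 ≤ J) :
    4 / 3 - 2 / (J : ℝ) ≤ ∑ k ∈ Finset.range J, 2 / (J : ℝ) * (1 - (((k : ℝ) + 1) / J) ^ 2) := by
  have hJr : (1 : ℝ) ≤ J := by exact_mod_cast hJ
  have h2 : ∑ k ∈ Finset.range J, 2 / (J : ℝ) * (1 - (((k : ℝ) + 1) / J) ^ 2) =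
      2 - 2 / (J : ℝ) ^ 3 * ((J : ℝ) * (J + 1) * (2 * J + 1) / 6) := by
    rw [← sum_sq_range', Finset.mul_sum]
    have h3 : ∀ k ∈ Finset.range J, 2 / (J : ℝ) * (1 - (((k : ℝ) + 1) / J) ^ 2) =
        2 / J - 2 / (J : ℝ) ^ 3 * ((k : ℝ) + 1) ^ 2 := by
      intro k _
      field_simp
    rw [Finset.sum_congr rfl h3, Finset.sum_sub_distrib, Finset.sum_const, Finset.card_range,
      nsmul_eq_mul]
    congr 1
    field_simp
  have h3 : 2 / (J : ℝ) ^ 3 * ((J : ℝ) * (J + 1) * (2 * J + 1) / 6) =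
      2 / 3 + 1 / J + 1 / (3 * (J : ℝ) ^ 2) := by
    field_simp
    ring
  have h4 : 1 / (3 * (J : ℝ) ^ 2) ≤ 1 / J := by
    apply one_div_le_one_div_of_le (by linarith)
    nlinarith
  have h7 : (2 : ℝ) / J = 2 * (1 / J) := by ring
  rw [h2, h3, h7]
  linarith

/-- **`m(n) ~ (4/3) n^{3/2} / log n`.** -/
theorem packNum_tendsto :
    Tendsto (fun n : ℕ => (packNum n : ℝ) * Real.log n / (n : ℝ) ^ (3 / 2 : ℝ)) atTop
      (𝓝 (4 / 3)) := by
  have hpow : ∀ n : ℕ, (n : ℝ) ^ (3 / 2 : ℝ) = n * Real.sqrt n := by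
    intro n
    rcases Nat.eq_zero_or_pos n with h | h
    · subst h
      simp
    · have hn : (0 : ℝ) < n := by exact_mod_cast h
      rw [Real.sqrt_eq_rpow]
      nth_rewrite 2 [← Real.rpow_one (n : ℝ)]
      rw [← Real.rpow_add hn]
      norm_num
  simp_rw [hpow]
  rw [tendsto_order]
  constructor
  · intro a ha
    obtain ⟨J, hJ⟩ := exists_nat_gt (2 / (4 / 3 - a))
    have hpos : 0 < 4 / 3 - a := by linarith
    have hJ0 : (0 : ℝ) < J := lt_trans (by positivity) hJ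
    have hJ1 : 1 ≤ J := by exact_mod_cast hJ0
    obtain ⟨u, hu1, hu2⟩ := lower_limit J hJ1
    have h1 : a < ∑ k ∈ Finset.range J, 2 / (J : ℝ) * (1 - (((k : ℝ) + 1) / J) ^ 2) := by
      refine lt_of_lt_of_le ?_ (lower_const J hJ1)
      rw [div_lt_iff₀ hpos] at hJ
      have : 2 / (J : ℝ) < 4 / 3 - a := by
        rw [div_lt_iff₀ hJ0]; linarith
      linarith
    filter_upwards [hu1.eventually_const_lt h1, hu2] with n h2 h3
    exact h2.trans_le h3
  · intro a ha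
    obtain ⟨J, hJ⟩ := exists_nat_gt (4 / (a - 4 / 3))
    have hpos : 0 < a - 4 / 3 := by linarith
    have hJ0 : (0 : ℝ) < J := lt_trans (by positivity) hJ
    have hJ1 : 1 ≤ J := by exact_mod_cast hJ0
    obtain ⟨u, hu1, hu2⟩ := upper_limit J J hJ1 hJ1
    have h1 : 2 * (1 / (J : ℝ)) + ∑ k ∈ Finset.Ico 1 J, 2 / (J : ℝ) * cblock J k J < a := by
      refine lt_of_le_of_lt (upper_const J J hJ1 hJ1) ?_
      rw [div_lt_iff₀ hpos] at hJ
      have : 4 / (J : ℝ) < a - 4 / 3 := by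
        rw [div_lt_iff₀ hJ0]; linarith
      have h2 : 4 / (J : ℝ) = 2 / J + 2 / J := by ring
      linarith
    filter_upwards [hu1.eventually_lt_const h1, hu2] with n h2 h3
    exact lt_of_le_of_lt h3 h2

end Pool.Agent.LibH27.Pack
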