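import Mathlib

/-!
# A finite Kronecker theorem in `ZMod q`

If `a_i ∈ ZMod q` satisfy no linear relation with coefficients bounded by `H`, then the multiples
`x • a` visit every box of side `≥ ρ q`.
-/

namespace Pool.Agent.LibH27.Pack

open Finset

section

variable {q : ℕ} [NeZero q]

/-- the exponential sum of an interval -/
noncomputable def expS (q L : ℕ) [NeZero q] (k : ZMod q) : ℂ :=
  ∑ u ∈ range L, ZMod.stdAddChar (k * (u : ZMod q))

/-- squared modulus of `expS` -/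
noncomputable def fejF (q L : ℕ) [NeZero q] (k : ZMod q) : ℝ := ‖expS q L k‖ ^ 2

theorem fejF_nonneg (L : ℕ) (k : ZMod q) : 0 ≤ fejF q L k := by
  unfold fejF; positivity

theorem fejF_eq (L : ℕ) (k : ZMod q) : ((fejF q L k : ℝ) : ℂ) =
    ∑ u ∈ range L, ∑ v ∈ range L, ZMod.stdAddChar (k * ((u : ZMod q) - (v : ZMod q))) := by
  unfold fejF
  have h1 : (((‖expS q L k‖ ^ 2 : ℝ)) : ℂ) = expS q L k * (starRingEnd ℂ) (expS q L k) := by
    rw [Complex.mul_conj, Complex.normSq_eq_norm_sq]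
  rw [h1]
  unfold expS
  rw [map_sum, Finset.sum_mul_sum]
  refine Finset.sum_congr rfl fun u _ => Finset.sum_congr rfl fun v _ => ?_
  rw [← AddChar.map_neg_eq_conj, ← AddChar.map_add_eq_mul]
  congr 1
  ring

theorem sum_stdAddChar (b : ZMod q) :
    ∑ x : ZMod q, (ZMod.stdAddChar (x * b) : ℂ) = if b = 0 then (q : ℂ) else 0 := by
  have := AddChar.sum_mulShift b (ZMod.isPrimitive_stdAddChar q)
  rw [ZMod.card] at this
  rw [this]
  split_ifs <;> simp

theorem sum_fejF {L : ℕ} (hL : L ≤ q) : ∑ k : ZMod q, fejF q L k = q * L := by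
  have h1 : ((∑ k : ZMod q, fejF q L k : ℝ) : ℂ) = ((q * L : ℝ) : ℂ) := by
    push_cast
    simp_rw [fejF_eq]
    rw [Finset.sum_comm]
    calc ∑ u ∈ range L, ∑ k : ZMod q, ∑ v ∈ range L, (ZMod.stdAddChar (k * ((u : ZMod q) - (v : ZMod q))) : ℂ)
        = ∑ u ∈ range L, ∑ v ∈ range L, if u = v then (q : ℂ) else 0 := by
          refine Finset.sum_congr rfl fun u hu => ?_
          rw [Finset.sum_comm]
          refine Finset.sum_congr rfl fun v hv => ?_
          rw [sum_stdAddChar]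
          rw [mem_range] at hu hv
          congr 1
          rw [sub_eq_zero, ZMod.natCast_eq_natCast_iff']
          rw [Nat.mod_eq_of_lt (by omega), Nat.mod_eq_of_lt (by omega)]
      _ = ∑ u ∈ range L, (q : ℂ) := by
          refine Finset.sum_congr rfl fun u hu => ?_
          rw [Finset.sum_ite_eq]
          simp [hu]
      _ = q * L := by simp [mul_comm]
  exact_mod_cast h1

theorem fejF_zero (L : ℕ) : fejF q L 0 = (L : ℝ) ^ 2 := by
  unfold fejF expS
  simp

/-- the basic decay estimate -/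
theorem fejF_le (L : ℕ) {k : ZMod q} (hk : k ≠ 0) :
    fejF q L k ≤ (q : ℝ) ^ 2 / 4 * (((k.valMinAbs.natAbs : ℝ)) ^ 2)⁻¹ := by
  have hq : (0 : ℝ) < q := by exact_mod_cast Nat.pos_of_ne_zero (NeZero.ne q)
  set j : ℤ := k.valMinAbs with hj
  have hj0 : j ≠ 0 := by
    rw [hj, Ne, ZMod.valMinAbs_eq_zero]; exact hk
  have hjk : (j : ZMod q) = k := ZMod.coe_valMinAbs k
  have hj2 := ZMod.valMinAbs_mem_Ioc k
  rw [← hj] at hj2
  have habs : (((j.natAbs : ℕ) : ℝ)) = |(j : ℝ)| := by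
    rw [Nat.cast_natAbs, Int.cast_abs]
  -- geometric sum
  have hgeo : expS q L k * (ZMod.stdAddChar k - 1) = ZMod.stdAddChar (k * (L : ZMod q)) - 1 := by
    unfold expS
    have h1 : ∀ u : ℕ, (ZMod.stdAddChar (k * (u : ZMod q)) : ℂ) = (ZMod.stdAddChar k) ^ u := by
      intro u
      rw [← AddChar.map_nsmul_eq_pow]
      congr 1
      rw [nsmul_eq_mul, mul_comm]
    simp_rw [h1]
    exact geom_sum_mul _ _
  have hn1 : ‖(ZMod.stdAddChar (k * (L : ZMod q)) : ℂ) - 1‖ ≤ 2 := by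
    refine (norm_sub_le _ _).trans ?_
    rw [AddChar.norm_apply]
    simp
    norm_num
  have hn2 : 4 * |(j : ℝ)| / q ≤ ‖(ZMod.stdAddChar k : ℂ) - 1‖ := by
    rw [← hjk, ZMod.stdAddChar_coe]
    have h1 : (2 * (Real.pi : ℂ) * Complex.I * j / q) =
        Complex.I * ((2 * Real.pi * j / q : ℝ) : ℂ) := by
      push_cast; ring
    rw [h1, Complex.norm_exp_I_mul_ofReal_sub_one, norm_mul, Real.norm_eq_abs, Real.norm_eq_abs]
    have h2 : |2 * Real.pi * (j : ℝ) / q / 2| ≤ Real.pi / 2 := by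
      have h3 : 2 * Real.pi * (j : ℝ) / q / 2 = Real.pi * (j / q) := by ring
      rw [h3, abs_mul, abs_of_pos Real.pi_pos, abs_div, abs_of_pos hq]
      have h4 : |(j : ℝ)| / q ≤ 1 / 2 := by
        rw [div_le_div_iff₀ hq (by norm_num)]
        have h5 : |j * 2| ≤ q := by
          rw [abs_le]; constructor
          · exact hj2.1.le
          · exact hj2.2
        have h6 : ((|j * 2| : ℤ) : ℝ) ≤ q := by exact_mod_cast h5
        rw [Int.cast_abs] at h6
        push_cast at h6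
        rw [abs_mul] at h6
        norm_num at h6 ⊢
        linarith
      calc Real.pi * (|(j : ℝ)| / q) ≤ Real.pi * (1 / 2) := by gcongr
        _ = Real.pi / 2 := by ring
    have h7 := Real.mul_abs_le_abs_sin h2
    have h8 : |2 * Real.pi * (j : ℝ) / q / 2| = Real.pi * |(j : ℝ)| / q := by
      have h3 : 2 * Real.pi * (j : ℝ) / q / 2 = Real.pi * (j / q) := by ring
      rw [h3, abs_mul, abs_of_pos Real.pi_pos, abs_div, abs_of_pos hq]; ring
    rw [h8] at h7
    have h9 : 2 / Real.pi * (Real.pi * |(j : ℝ)| / q) = 2 * |(j : ℝ)| / q := by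
      have := Real.pi_ne_zero
      field_simp
    rw [h9] at h7
    rw [abs_of_pos (by norm_num : (0 : ℝ) < 2)]
    calc 4 * |(j : ℝ)| / q = 2 * (2 * |(j : ℝ)| / q) := by ring
      _ ≤ _ := by gcongr
  have hjpos : 0 < |(j : ℝ)| := abs_pos.2 (by exact_mod_cast hj0)
  have hmain : ‖expS q L k‖ * (4 * |(j : ℝ)| / q) ≤ 2 := by
    calc ‖expS q L k‖ * (4 * |(j : ℝ)| / q)
        ≤ ‖expS q L k‖ * ‖(ZMod.stdAddChar k : ℂ) - 1‖ := by gcongr
      _ = ‖(ZMod.stdAddChar (k * (L : ZMod q)) : ℂ) - 1‖ := by rw [← norm_mul, hgeo]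
      _ ≤ 2 := hn1
  unfold fejF
  rw [habs]
  have h10 : ‖expS q L k‖ ≤ q / 2 * |(j : ℝ)|⁻¹ := by
    rw [← div_eq_mul_inv, le_div_iff₀ hjpos]
    have : ‖expS q L k‖ * (4 * |(j : ℝ)| / q) = (‖expS q L k‖ * |(j : ℝ)|) * (4 / q) := by ring
    rw [this] at hmain
    have h11 : (‖expS q L k‖ * |(j : ℝ)|) * (4 / q) * (q / 4) ≤ 2 * (q / 4) := by gcongr
    have h12 : (‖expS q L k‖ * |(j : ℝ)|) * (4 / q) * (q / 4) = ‖expS q L k‖ * |(j : ℝ)| := by
      field_simp
    rw [h12] at h11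
    linarith
  calc ‖expS q L k‖ ^ 2 ≤ (q / 2 * |(j : ℝ)|⁻¹) ^ 2 := by gcongr
    _ = (q : ℝ) ^ 2 / 4 * (|(j : ℝ)| ^ 2)⁻¹ := by
      rw [mul_pow, inv_pow]; ring

theorem sum_fejF_tail (L H : ℕ) (hH : 1 ≤ H) :
    ∑ k ∈ univ.filter (fun k : ZMod q => H < k.valMinAbs.natAbs), fejF q L k
      ≤ (q : ℝ) ^ 2 / (2 * H) := by
  classical
  have hq : (0 : ℝ) < q := by exact_mod_cast Nat.pos_of_ne_zero (NeZero.ne q)
  have hHr : (0 : ℝ) < H := by exact_mod_cast hH
  calc ∑ k ∈ univ.filter (fun k : ZMod q => H < k.valMinAbs.natAbs), fejF q L k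
      ≤ ∑ k ∈ univ.filter (fun k : ZMod q => H < k.valMinAbs.natAbs),
          (q : ℝ) ^ 2 / 4 * (((k.valMinAbs.natAbs : ℝ)) ^ 2)⁻¹ := by
        refine Finset.sum_le_sum fun k hk => ?_
        rw [mem_filter] at hk
        refine fejF_le L ?_
        rintro rfl
        simp at hk
    _ = (q : ℝ) ^ 2 / 4 * ∑ k ∈ univ.filter (fun k : ZMod q => H < k.valMinAbs.natAbs),
          (((k.valMinAbs.natAbs : ℝ)) ^ 2)⁻¹ := by rw [Finset.mul_sum]
    _ ≤ (q : ℝ) ^ 2 / 4 * (2 * ∑ j ∈ Ioc H (max H q), (((j : ℝ)) ^ 2)⁻¹) := by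
        gcongr
        -- map to ℤ
        have h1 : ∑ k ∈ univ.filter (fun k : ZMod q => H < k.valMinAbs.natAbs),
            (((k.valMinAbs.natAbs : ℝ)) ^ 2)⁻¹ =
            ∑ j ∈ (univ.filter (fun k : ZMod q => H < k.valMinAbs.natAbs)).image
              ZMod.valMinAbs, (((j.natAbs : ℝ)) ^ 2)⁻¹ := by
          rw [Finset.sum_image]
          intro a _ b _ hab
          exact ZMod.injective_valMinAbs hab
        rw [h1]
        have h2 : (univ.filter (fun k : ZMod q => H < k.valMinAbs.natAbs)).image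
            ZMod.valMinAbs ⊆ ((Ioc H (max H q)).image (fun j : ℕ => (j : ℤ))) ∪
              ((Ioc H (max H q)).image (fun j : ℕ => -(j : ℤ))) := by
          intro j hj
          rw [mem_image] at hj
          obtain ⟨k, hk, rfl⟩ := hj
          rw [mem_filter] at hk
          have h3 := ZMod.natAbs_valMinAbs_le k
          have h4 : k.valMinAbs.natAbs ∈ Ioc H (max H q) := by
            rw [mem_Ioc]
            refine ⟨hk.2, le_max_of_le_right ?_⟩
            omega
          rw [mem_union, mem_image, mem_image]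
          rcases Int.natAbs_eq k.valMinAbs with h | h
          · left; exact ⟨_, h4, h.symm⟩
          · right; exact ⟨_, h4, h.symm⟩
        calc ∑ j ∈ (univ.filter (fun k : ZMod q => H < k.valMinAbs.natAbs)).image
              ZMod.valMinAbs, (((j.natAbs : ℝ)) ^ 2)⁻¹
            ≤ ∑ j ∈ ((Ioc H (max H q)).image (fun j : ℕ => (j : ℤ))) ∪
              ((Ioc H (max H q)).image (fun j : ℕ => -(j : ℤ))), (((j.natAbs : ℝ)) ^ 2)⁻¹ :=
              Finset.sum_le_sum_of_subset_of_nonneg h2 (fun _ _ _ => by positivity)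
          _ ≤ ∑ j ∈ ((Ioc H (max H q)).image (fun j : ℕ => (j : ℤ))), (((j.natAbs : ℝ)) ^ 2)⁻¹ +
              ∑ j ∈ ((Ioc H (max H q)).image (fun j : ℕ => -(j : ℤ))), (((j.natAbs : ℝ)) ^ 2)⁻¹ := by
              rw [← Finset.sum_union_inter]
              have : 0 ≤ ∑ j ∈ ((Ioc H (max H q)).image (fun j : ℕ => (j : ℤ))) ∩
                ((Ioc H (max H q)).image (fun j : ℕ => -(j : ℤ))), (((j.natAbs : ℝ)) ^ 2)⁻¹ :=
                Finset.sum_nonneg fun _ _ => by positivity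
              linarith
          _ = 2 * ∑ j ∈ Ioc H (max H q), (((j : ℝ)) ^ 2)⁻¹ := by
              rw [Finset.sum_image (by intro a _ b _ h; simpa using h),
                Finset.sum_image (by intro a _ b _ h; simpa using h)]
              simp only [Int.natAbs_natCast, Int.natAbs_neg]
              ring
    _ ≤ (q : ℝ) ^ 2 / 4 * (2 * (H : ℝ)⁻¹) := by
        gcongr
        have := sum_Ioc_inv_sq_le_sub (α := ℝ) (k := H) (n := max H q) (by omega)
          (le_max_left _ _)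
        refine this.trans ?_
        have : (0 : ℝ) ≤ ((max H q : ℕ) : ℝ)⁻¹ := by positivity
        linarith
    _ = (q : ℝ) ^ 2 / (2 * H) := by field_simp; ring

end

end Pool.Agent.LibH27.Pack
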