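import Pool.Agent.Lib_helper27.Pack.Defs

/-!
# Greedy packing
-/

namespace Pool.Agent.LibH27.Pack

open Finset

theorem hit_exists {n d : ℕ} (hd : 1 ≤ d) {s z : ℤ} (h : Hit n d s z) :
    ∃ j ∈ Icc 1 (n / d), z = s + j * d := by
  rw [hit_iff hd] at h
  obtain ⟨j, h1, h2, h3⟩ := h
  refine ⟨j, Finset.mem_Icc.2 ⟨h1, (Nat.le_div_iff_mul_le hd).2 h2⟩, ?_⟩
  push_cast at h3
  linarith

theorem PackF.greedy (n L : ℕ) (T : Finset ℕ) (hT : ∀ d ∈ T, 1 ≤ d)
    (h : ∀ d ∈ T, ∑ e ∈ T.filter (· < d), (n / e) * (n / d) + n ≤ L) :
    PackF n (T : Set ℕ) L := by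
  classical
  induction T using Finset.induction_on_max with
  | empty => simpa using PackF.empty n L
  | insert a s ha ih =>
    have ha' : a ∉ s := fun h => lt_irrefl _ (ha a h)
    have hf : ∀ d ∈ s, (insert a s).filter (· < d) = s.filter (· < d) := by
      intro d hd
      rw [Finset.filter_insert, if_neg (by have := ha d hd; omega)]
    obtain ⟨t, h1, h2⟩ := ih (fun d hd => hT d (mem_insert_of_mem hd)) (fun d hd => by
      rw [← hf d hd]; exact h d (mem_insert_of_mem hd))
    have ha1 : 1 ≤ a := hT a (mem_insert_self _ _)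
    have hsum := h a (mem_insert_self _ _)
    have hf2 : (insert a s).filter (· < a) = s := by
      rw [Finset.filter_insert, if_neg (lt_irrefl _)]
      exact Finset.filter_true_of_mem ha
    rw [hf2] at hsum
    -- the bad shifts
    let bad : Finset ℤ := s.biUnion fun e => ((Icc 1 (n / e)) ×ˢ (Icc 1 (n / a))).image
      fun jk : ℕ × ℕ => t e + jk.1 * e - jk.2 * a
    have hbad : bad.card ≤ L - n := by
      calc bad.card ≤ ∑ e ∈ s, (((Icc 1 (n / e)) ×ˢ (Icc 1 (n / a))).image
            fun jk : ℕ × ℕ => t e + jk.1 * e - jk.2 * a).card := Finset.card_biUnion_le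
        _ ≤ ∑ e ∈ s, (n / e) * (n / a) := by
            refine Finset.sum_le_sum fun e _ => ?_
            refine Finset.card_image_le.trans ?_
            rw [Finset.card_product]
            simp
        _ ≤ L - n := by omega
    have hcard : bad.card < (Finset.Icc (0 : ℤ) ((L - n : ℕ) : ℤ)).card := by
      rw [Int.card_Icc]
      omega
    obtain ⟨u, hu, hub⟩ := Finset.exists_mem_notMem_of_card_lt_card hcard
    rw [Finset.mem_Icc] at hu
    have key : ∀ e ∈ s, ∀ z, ¬ (Hit n a u z ∧ Hit n e (t e) z) := by
      rintro e he z ⟨hz1, hz2⟩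
      obtain ⟨k, hk, hk'⟩ := hit_exists ha1 hz1
      obtain ⟨j, hj, hj'⟩ := hit_exists (hT e (mem_insert_of_mem he)) hz2
      apply hub
      simp only [bad, Finset.mem_biUnion, Finset.mem_image, Finset.mem_product]
      exact ⟨e, he, (j, k), ⟨hj, hk⟩, by simp only []; linarith⟩
    have hne : ∀ d ∈ s, d ≠ a := fun d hd h => ha' (by rw [← h]; exact hd)
    refine ⟨Function.update t a u, ?_, ?_⟩
    · intro d hd
      rw [Finset.mem_coe, Finset.mem_insert] at hd
      rcases hd with rfl | hd
      · rw [Function.update_self]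
        constructor <;> omega
      · rw [Function.update_of_ne (hne d hd)]
        exact h1 d hd
    · intro d hd e he hde z
      rw [Finset.mem_coe, Finset.mem_insert] at hd he
      rcases hd with rfl | hd <;> rcases he with rfl | he
      · exact absurd rfl hde
      · rw [Function.update_self, Function.update_of_ne (hne e he)]
        exact key e he z
      · rw [Function.update_self, Function.update_of_ne (hne d hd)]
        exact fun hz => key d hd z hz.symm
      · rw [Function.update_of_ne (hne d hd),
          Function.update_of_ne (hne e he)]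
        exact h2 d hd e he hde z

end Pool.Agent.LibH27.Pack
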