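import Pool.Agent.Lib_helper27.Pack.Seq

/-!
# A generic ordering of a set of primes
-/

namespace Pool.Agent.LibH27.Pack

open Finset

/-- the integer whose divisors `q` are the bad ones for the relation `h` -/
def relN (T : Finset ℕ) (p : ℕ → ℕ) (h : ℕ → ℤ) : ℤ :=
  ∑ j ∈ T, h j * ∏ l ∈ T.erase j, (p l : ℤ)

theorem relN_congr {T : Finset ℕ} {p p' : ℕ → ℕ} {h h' : ℕ → ℤ} (hp : ∀ j ∈ T, p j = p' j)
    (hh : ∀ j ∈ T, h j = h' j) : relN T p h = relN T p' h' := by
  unfold relN
  refine Finset.sum_congr rfl fun j hj => ?_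
  rw [hh j hj]
  congr 1
  refine Finset.prod_congr rfl fun l hl => ?_
  rw [hp l (mem_of_mem_erase hl)]

theorem Generic.congr {H : ℕ} {T : Finset ℕ} {p p' : ℕ → ℕ} {q : ℕ} (hp : ∀ j ∈ T, p j = p' j)
    (h : Generic H T p q) : Generic H T p' q := by
  intro g hg hdvd
  refine h g hg ?_
  have : relN T p g = relN T p' g := relN_congr hp fun _ _ => rfl
  unfold relN at this
  rw [this]
  exact hdvd

theorem relN_ne_zero {H : ℕ} {T : Finset ℕ} {p : ℕ → ℕ} {h : ℕ → ℤ} (hpp : ∀ j ∈ T, (p j).Prime)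
    (hinj : ∀ i ∈ T, ∀ j ∈ T, i ≠ j → p i ≠ p j) (hH : ∀ j ∈ T, H < p j)
    (hh : ∀ j ∈ T, |h j| ≤ H) {j₀ : ℕ} (hj₀ : j₀ ∈ T) (h0 : h j₀ ≠ 0) : relN T p h ≠ 0 := by
  intro hN
  unfold relN at hN
  rw [← Finset.add_sum_erase _ _ hj₀] at hN
  have hpr : Prime (p j₀ : ℤ) := Nat.prime_iff_prime_int.1 (hpp j₀ hj₀)
  have h1 : (p j₀ : ℤ) ∣ ∑ j ∈ T.erase j₀, h j * ∏ l ∈ T.erase j, (p l : ℤ) := by
    refine Finset.dvd_sum fun j hj => ?_
    refine Dvd.dvd.mul_left ?_ _
    refine Finset.dvd_prod_of_mem (fun l => (p l : ℤ)) ?_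
    rw [mem_erase] at hj ⊢
    exact ⟨Ne.symm hj.1, hj₀⟩
  have h2 : (p j₀ : ℤ) ∣ h j₀ * ∏ l ∈ T.erase j₀, (p l : ℤ) := by
    have h3 : h j₀ * ∏ l ∈ T.erase j₀, (p l : ℤ) =
        -∑ j ∈ T.erase j₀, h j * ∏ l ∈ T.erase j, (p l : ℤ) := by linarith
    rw [h3]
    exact dvd_neg.2 h1
  rcases hpr.dvd_or_dvd h2 with h3 | h3
  · have := Int.eq_zero_of_abs_lt_dvd h3 (lt_of_le_of_lt (hh j₀ hj₀) (by exact_mod_cast hH j₀ hj₀))
    exact h0 this
  · obtain ⟨l, hl, hl'⟩ := (Prime.dvd_finsetProd_iff hpr _).1 h3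
    rw [mem_erase] at hl
    have h4 : p j₀ ∣ p l := by exact_mod_cast hl'
    exact hinj j₀ hj₀ l hl.2 (Ne.symm hl.1)
      ((Nat.prime_dvd_prime_iff_eq (hpp j₀ hj₀) (hpp l hl.2)).1 h4)

theorem relN_abs_le {H W : ℕ} {T : Finset ℕ} {p : ℕ → ℕ} {h : ℕ → ℤ}
    (hW : ∀ j ∈ T, p j ≤ W) (hh : ∀ j ∈ T, |h j| ≤ H) :
    (relN T p h).natAbs ≤ T.card * (H * W ^ (T.card - 1)) := by
  have h1 : |relN T p h| ≤ T.card * (H * W ^ (T.card - 1)) := by
    unfold relN
    calc |∑ j ∈ T, h j * ∏ l ∈ T.erase j, (p l : ℤ)|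
        ≤ ∑ j ∈ T, |h j * ∏ l ∈ T.erase j, (p l : ℤ)| := Finset.abs_sum_le_sum_abs _ _
      _ ≤ ∑ j ∈ T, ((H : ℤ) * (W : ℤ) ^ (T.card - 1)) := by
          refine Finset.sum_le_sum fun j hj => ?_
          rw [abs_mul, Finset.abs_prod]
          have h2 : ∏ l ∈ T.erase j, |(p l : ℤ)| ≤ (W : ℤ) ^ (T.card - 1) := by
            rw [← Finset.card_erase_of_mem hj, ← Finset.prod_const]
            refine Finset.prod_le_prod (fun _ _ => abs_nonneg _) fun l hl => ?_
            rw [Nat.abs_cast]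
            exact_mod_cast hW l (mem_of_mem_erase hl)
          exact mul_le_mul (hh j hj) h2 (Finset.prod_nonneg fun _ _ => abs_nonneg _)
            (by positivity)
      _ = T.card * (H * W ^ (T.card - 1)) := by rw [Finset.sum_const, nsmul_eq_mul]
  rw [Int.abs_eq_natAbs] at h1
  exact_mod_cast h1

theorem card_bad_le {H W A K : ℕ} {T : Finset ℕ} {p : ℕ → ℕ} (hTK : T.card ≤ K)
    (hpp : ∀ j ∈ T, (p j).Prime)
    (hinj : ∀ i ∈ T, ∀ j ∈ T, i ≠ j → p i ≠ p j) (hH : ∀ j ∈ T, H < p j)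
    (hW : ∀ j ∈ T, p j ≤ W) (hWA : W ≤ 2 * A) (hA : K * H * 2 ^ K < A)
    (P : Finset ℕ) (hP : ∀ q ∈ P, q.Prime ∧ A ≤ q) [DecidablePred fun q => ¬ Generic H T p q] :
    (P.filter fun q => ¬ Generic H T p q).card ≤ K * (2 * H + 1) ^ K := by
  classical
  have hA0 : 0 < A := by omega
  let 𝓗 : Finset (T → ℤ) := (Fintype.piFinset fun _ : T => Icc (-(H : ℤ)) H).filter
    fun g => ∃ j, g j ≠ 0
  let ext : (T → ℤ) → ℕ → ℤ := fun g j => if hj : j ∈ T then g ⟨j, hj⟩ else 0
  have hext : ∀ g j (hj : j ∈ T), ext g j = g ⟨j, hj⟩ := fun g j hj => by simp [ext, hj]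
  have h1 : (P.filter fun q => ¬ Generic H T p q) ⊆
      𝓗.biUnion fun g => P.filter fun q : ℕ => (q : ℤ) ∣ relN T p (ext g) := by
    intro q hq
    rw [mem_filter] at hq
    obtain ⟨hqP, hq2⟩ := hq
    unfold Generic at hq2
    push Not at hq2
    obtain ⟨h, hh1, hh2, j₀, hj₀, hh3⟩ := hq2
    rw [mem_biUnion]
    refine ⟨fun j => h j, ?_, ?_⟩
    · rw [mem_filter]
      refine ⟨?_, ⟨j₀, hj₀⟩, hh3⟩
      rw [Fintype.mem_piFinset]
      intro j
      rw [mem_Icc, ← abs_le]
      exact hh1 j j.2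
    · rw [mem_filter]
      refine ⟨hqP, ?_⟩
      have : relN T p (ext fun j : T => h j) = relN T p h :=
        relN_congr (fun _ _ => rfl) (fun j hj => hext (fun j : T => h j) j hj)
      rw [this]
      exact hh2
  have h2 : ∀ g ∈ 𝓗, (P.filter fun q : ℕ => (q : ℤ) ∣ relN T p (ext g)).card ≤ K := by
    intro g hg
    rw [mem_filter, Fintype.mem_piFinset] at hg
    obtain ⟨hg1, ⟨j₀, hj₀⟩, hg2⟩ := hg
    have hgabs : ∀ j ∈ T, |ext g j| ≤ H := by
      intro j hj
      rw [hext g j hj, abs_le, ← mem_Icc]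
      exact hg1 _
    have hN0 : relN T p (ext g) ≠ 0 :=
      relN_ne_zero hpp hinj hH hgabs hj₀ (by rw [hext g j₀ hj₀]; exact hg2)
    have hNle := relN_abs_le hW hgabs
    set N := (relN T p (ext g)).natAbs with hN
    have hNpos : 0 < N := Int.natAbs_pos.2 hN0
    have hprod : ∏ q ∈ P.filter (fun q : ℕ => (q : ℤ) ∣ relN T p (ext g)), q ∣ N := by
      refine Finset.prod_primes_dvd _ ?_ ?_
      · intro q hq
        rw [mem_filter] at hq
        exact (hP q hq.1).1.prime
      · intro q hq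
        rw [mem_filter] at hq
        exact Int.natCast_dvd.1 hq.2
    have hle := Nat.le_of_dvd hNpos hprod
    have hTpos : 0 < T.card := Finset.card_pos.2 ⟨j₀, hj₀⟩
    have hlow : A ^ (P.filter (fun q : ℕ => (q : ℤ) ∣ relN T p (ext g))).card ≤
        ∏ q ∈ P.filter (fun q : ℕ => (q : ℤ) ∣ relN T p (ext g)), q := by
      rw [← Finset.prod_const]
      refine Finset.prod_le_prod' fun q hq => ?_
      rw [mem_filter] at hq
      exact (hP q hq.1).2
    have hup : T.card * (H * W ^ (T.card - 1)) < A ^ T.card := by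
      obtain ⟨t, ht⟩ : ∃ t, T.card = t + 1 := ⟨T.card - 1, by omega⟩
      rw [ht, Nat.add_sub_cancel]
      calc (t + 1) * (H * W ^ t) ≤ K * (H * (2 * A) ^ t) := by
            gcongr
            omega
        _ = (K * H * 2 ^ t) * A ^ t := by rw [mul_pow]; ring
        _ ≤ (K * H * 2 ^ K) * A ^ t := by
            gcongr
            · norm_num
            · omega
        _ < A * A ^ t := by
            exact Nat.mul_lt_mul_of_pos_right hA (by positivity)
        _ = A ^ (t + 1) := by ring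
    have hlt : A ^ (P.filter (fun q : ℕ => (q : ℤ) ∣ relN T p (ext g))).card < A ^ T.card := by
      omega
    by_contra hcon
    push Not at hcon
    have : A ^ T.card ≤ A ^ (P.filter (fun q : ℕ => (q : ℤ) ∣ relN T p (ext g))).card :=
      Nat.pow_le_pow_right hA0 (by omega)
    omega
  calc (P.filter fun q => ¬ Generic H T p q).card
      ≤ (𝓗.biUnion fun g => P.filter fun q : ℕ => (q : ℤ) ∣ relN T p (ext g)).card :=
        Finset.card_le_card h1
    _ ≤ 𝓗.card * K := Finset.card_biUnion_le_card_mul _ _ _ h2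
    _ ≤ (2 * H + 1) ^ K * K := by
        refine Nat.mul_le_mul_right _ ?_
        calc 𝓗.card ≤ (Fintype.piFinset fun _ : T => Icc (-(H : ℤ)) H).card :=
              Finset.card_filter_le _ _
          _ = (2 * H + 1) ^ T.card := by
              rw [Fintype.card_piFinset]
              rw [Finset.prod_const, Int.card_Icc, Finset.card_univ, Fintype.card_coe]
              congr 1
              omega
          _ ≤ (2 * H + 1) ^ K := Nat.pow_le_pow_right (by omega) hTK
    _ = K * (2 * H + 1) ^ K := by ring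

/-- **A generic ordering** of all but at most `K (2H+1)^K` elements of a set of primes. -/
theorem exists_order {H W A K : ℕ} (hWA : W ≤ 2 * A) (hA : K * H * 2 ^ K < A) (hHA : H < A)
    (P : Finset ℕ) (hP : ∀ q ∈ P, q.Prime ∧ A ≤ q ∧ q ≤ W) (r : ℕ)
    (hr : r + K * (2 * H + 1) ^ K ≤ P.card) :
    ∃ p : ℕ → ℕ, (∀ i < r, p i ∈ P) ∧ (∀ i < r, ∀ j < r, i ≠ j → p i ≠ p j) ∧
      ∀ i < r, Generic H (Ico (i - K) i) p (p i) := by
  classical
  induction r with
  | zero => exact ⟨fun _ => 0, by simp, by simp, by simp⟩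
  | succ r ih =>
    obtain ⟨p, h1, h2, h3⟩ := ih (by omega)
    have hT : ∀ j ∈ Ico (r - K) r, j < r := fun j hj => (mem_Ico.1 hj).2
    have hbad := card_bad_le (H := H) (W := W) (A := A) (K := K) (T := Ico (r - K) r) (p := p)
      (by rw [Nat.card_Ico]; omega) (fun j hj => (hP _ (h1 j (hT j hj))).1)
      (fun i hi j hj => h2 i (hT i hi) j (hT j hj))
      (fun j hj => lt_of_lt_of_le hHA (hP _ (h1 j (hT j hj))).2.1)
      (fun j hj => (hP _ (h1 j (hT j hj))).2.2) hWA hA P (fun q hq => ⟨(hP q hq).1, (hP q hq).2.1⟩)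
    have hcard : ((range r).image p ∪ P.filter fun q => ¬ Generic H (Ico (r - K) r) p q).card
        < P.card := by
      calc _ ≤ ((range r).image p).card + _ := Finset.card_union_le _ _
        _ ≤ r + K * (2 * H + 1) ^ K := by
            refine Nat.add_le_add ?_ hbad
            exact Finset.card_image_le.trans (by simp)
        _ < P.card := by omega
    obtain ⟨q, hqP, hq⟩ := Finset.exists_mem_notMem_of_card_lt_card hcard
    rw [mem_union, mem_image, mem_filter] at hq
    push Not at hq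
    obtain ⟨hq1, hq2⟩ := hq
    have hq3 : Generic H (Ico (r - K) r) p q := hq2 hqP
    refine ⟨Function.update p r q, ?_, ?_, ?_⟩
    · intro i hi
      rcases Nat.lt_succ_iff_lt_or_eq.1 hi with h | h
      · rw [Function.update_of_ne h.ne]; exact h1 i h
      · rw [h, Function.update_self]; exact hqP
    · intro i hi j hj hij
      rcases Nat.lt_succ_iff_lt_or_eq.1 hi with h | h <;>
        rcases Nat.lt_succ_iff_lt_or_eq.1 hj with h' | h'
      · rw [Function.update_of_ne h.ne, Function.update_of_ne h'.ne]; exact h2 i h j h' hij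
      · rw [Function.update_of_ne h.ne, h', Function.update_self]
        exact hq1 i (mem_range.2 h)
      · rw [Function.update_of_ne h'.ne, h, Function.update_self]
        exact (hq1 j (mem_range.2 h')).symm
      · omega
    · intro i hi
      rcases Nat.lt_succ_iff_lt_or_eq.1 hi with h | h
      · rw [Function.update_of_ne h.ne]
        refine (h3 i h).congr fun j hj => ?_
        rw [mem_Ico] at hj
        rw [Function.update_of_ne (by omega)]
      · rw [h, Function.update_self]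
        refine hq3.congr fun j hj => ?_
        rw [mem_Ico] at hj
        rw [Function.update_of_ne (by omega)]

end Pool.Agent.LibH27.Pack
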