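import Pool.Agent.Lib_helper70.PNT.PNT

/-!
# Primes in intervals `(a √n, b √n]`
-/

namespace Pool.Agent.LibH27.Pack

open Finset Filter Topology

theorem tendsto_sqrt_nat : Tendsto (fun n : ℕ => Real.sqrt n) atTop atTop :=
  Real.tendsto_sqrt_atTop.comp tendsto_natCast_atTop_atTop

theorem tendsto_log_nat : Tendsto (fun n : ℕ => Real.log n) atTop atTop :=
  Real.tendsto_log_atTop.comp tendsto_natCast_atTop_atTop

theorem pi_sqrt (c : ℝ) (hc : 0 ≤ c) :
    Tendsto (fun n : ℕ => (Nat.primeCounting ⌊c * Real.sqrt n⌋₊ : ℝ) * Real.log n / Real.sqrt n)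
      atTop (𝓝 (2 * c)) := by
  rcases hc.eq_or_lt with h0 | hc
  · subst h0
    simp
  have h1 : Tendsto (fun n : ℕ => c * Real.sqrt n) atTop atTop :=
    tendsto_sqrt_nat.const_mul_atTop hc
  have h2 := H70PNT.pi_tendsto.comp h1
  have h3 : Tendsto (fun n : ℕ => Real.log (c * Real.sqrt n) / Real.log n) atTop (𝓝 (1 / 2)) := by
    have h4 : Tendsto (fun n : ℕ => Real.log c * (Real.log n)⁻¹ + 1 / 2) atTop
        (𝓝 (Real.log c * 0 + 1 / 2)) :=
      ((tendsto_inv_atTop_zero.comp tendsto_log_nat).const_mul _).add_const _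
    rw [mul_zero, zero_add] at h4
    refine h4.congr' ?_
    filter_upwards [eventually_gt_atTop 1] with n hn
    have hn' : (1 : ℝ) < n := by exact_mod_cast hn
    have hlog : 0 < Real.log n := Real.log_pos hn'
    rw [Real.log_mul hc.ne' (Real.sqrt_ne_zero'.2 (by linarith)), Real.log_sqrt (by linarith)]
    field_simp
  have h5 := (h3.inv₀ (by norm_num)).const_mul c
  have h6 := h2.mul h5
  have h7 : (1 : ℝ) * (c * (1 / 2)⁻¹) = 2 * c := by ring
  rw [h7] at h6
  refine h6.congr' ?_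
  filter_upwards [eventually_gt_atTop 1, h1.eventually_gt_atTop 1] with n hn hn2
  have hn' : (1 : ℝ) < n := by exact_mod_cast hn
  have hlog : 0 < Real.log n := Real.log_pos hn'
  have hlog2 : 0 < Real.log (c * Real.sqrt n) := Real.log_pos hn2
  have hs : 0 < Real.sqrt n := Real.sqrt_pos.2 (by linarith)
  simp only [Function.comp]
  field_simp

/-- the primes in `(k √n / J, (k+1) √n / J]` -/
noncomputable def blockP (J k n : ℕ) : Finset ℕ :=
  (Finset.Ioc ⌊(k : ℝ) / J * Real.sqrt n⌋₊ ⌊((k : ℝ) + 1) / J * Real.sqrt n⌋₊).filter Nat.Prime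

theorem mem_blockP {J k n q : ℕ} : q ∈ blockP J k n ↔
    q.Prime ∧ (k : ℝ) / J * Real.sqrt n < q ∧ (q : ℝ) ≤ ((k : ℝ) + 1) / J * Real.sqrt n := by
  unfold blockP
  rw [Finset.mem_filter, Finset.mem_Ioc, Nat.floor_lt (by positivity),
    Nat.le_floor_iff (by positivity)]
  tauto

theorem card_primes_Ioc (a b : ℕ) (hab : a ≤ b) :
    (((Finset.Ioc a b).filter Nat.Prime).card : ℝ) =
      (Nat.primeCounting b : ℝ) - Nat.primeCounting a := by
  have h1 : ∀ m, Nat.primeCounting m = ((Finset.Ioc 0 m).filter Nat.Prime).card := by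
    intro m
    rw [Nat.primeCounting, Nat.primeCounting', Nat.count_eq_card_filter_range]
    congr 1
    ext x
    simp only [Finset.mem_filter, Finset.mem_range, Finset.mem_Ioc]
    constructor
    · rintro ⟨h1, h2⟩; exact ⟨⟨h2.pos, by omega⟩, h2⟩
    · rintro ⟨h1, h2⟩; exact ⟨by omega, h2⟩
  have h2 : (Finset.Ioc 0 b).filter Nat.Prime =
      ((Finset.Ioc 0 a).filter Nat.Prime) ∪ ((Finset.Ioc a b).filter Nat.Prime) := by
    rw [← Finset.filter_union, Finset.Ioc_union_Ioc_eq_Ioc (Nat.zero_le _) hab]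
  have h3 : Disjoint ((Finset.Ioc 0 a).filter Nat.Prime) ((Finset.Ioc a b).filter Nat.Prime) := by
    rw [Finset.disjoint_left]
    intro x hx hx'
    simp only [Finset.mem_filter, Finset.mem_Ioc] at hx hx'
    omega
  rw [h1 b, h1 a, h2, Finset.card_union_of_disjoint h3]
  push_cast
  ring

theorem card_blockP_tendsto (J k : ℕ) (hJ : 1 ≤ J) :
    Tendsto (fun n : ℕ => ((blockP J k n).card : ℝ) * Real.log n / Real.sqrt n) atTop
      (𝓝 (2 / J)) := by
  have hJ' : (0 : ℝ) < J := by exact_mod_cast hJ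
  have h1 := (pi_sqrt (((k : ℝ) + 1) / J) (by positivity)).sub (pi_sqrt ((k : ℝ) / J) (by positivity))
  have h2 : 2 * (((k : ℝ) + 1) / J) - 2 * ((k : ℝ) / J) = 2 / J := by ring
  rw [h2] at h1
  refine h1.congr fun n => ?_
  unfold blockP
  rw [card_primes_Ioc _ _ (Nat.floor_le_floor (by gcongr; linarith))]
  ring

end Pool.Agent.LibH27.Pack
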