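import Pool.Agent.Lib_helper27.Pack.Defs
import Pool.Agent.Lib_helper27.Pack.Equi
import Pool.Agent.Lib_helper27.Pack.Dirichlet

/-!
# Packing a generic sequence of primes
-/

namespace Pool.Agent.LibH27.Pack

open Finset

/-- `q` satisfies no small linear relation with the inverses of the `p j`, `j ∈ T`. -/
def Generic (H : ℕ) (T : Finset ℕ) (p : ℕ → ℕ) (q : ℕ) : Prop :=
  ∀ h : ℕ → ℤ, (∀ j ∈ T, |h j| ≤ H) →
    (q : ℤ) ∣ ∑ j ∈ T, h j * ∏ l ∈ T.erase j, (p l : ℤ) → ∀ j ∈ T, h j = 0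

theorem Generic.rel {H : ℕ} {T : Finset ℕ} {p : ℕ → ℕ} {q : ℕ} [Fact q.Prime]
    (hg : Generic H T p q) (hpq : ∀ j ∈ T, (p j : ZMod q) ≠ 0) (k : T → ZMod q)
    (hk : ∀ i, (k i).valMinAbs.natAbs ≤ H) (h0 : ∑ i, k i * ((p i : ZMod q))⁻¹ = 0) : k = 0 := by
  classical
  let h : ℕ → ℤ := fun j => if hj : j ∈ T then (k ⟨j, hj⟩).valMinAbs else 0
  have hh : ∀ j (hj : j ∈ T), h j = (k ⟨j, hj⟩).valMinAbs := fun j hj => by simp [h, hj]
  have h1 := hg h (fun j hj => by
    rw [hh j hj, Int.abs_eq_natAbs]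
    exact_mod_cast hk ⟨j, hj⟩) ?_
  · funext ⟨j, hj⟩
    have := h1 j hj
    rw [hh j hj, ZMod.valMinAbs_eq_zero] at this
    exact this
  · rw [← ZMod.intCast_zmod_eq_zero_iff_dvd]
    push_cast
    have h2 : ∑ j ∈ T, ((h j : ℤ) : ZMod q) * ∏ l ∈ T.erase j, ((p l : ℕ) : ZMod q) =
        (∏ l ∈ T, (p l : ZMod q)) * ∑ i : T, k i * ((p i : ZMod q))⁻¹ := by
      rw [Finset.mul_sum, ← Finset.sum_coe_sort T]
      refine Finset.sum_congr rfl fun j _ => ?_
      rw [hh j j.2, ZMod.coe_valMinAbs, ← Finset.mul_prod_erase T _ j.2]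
      have := hpq j j.2
      field_simp
    rw [h2, h0, mul_zero]

/-- the auxiliary displacements -/
theorem exists_v {r K R : ℕ} {p : ℕ → ℕ} (hp : ∀ i < r, (p i).Prime)
    (hR1 : 1 ≤ R) (hR : ∀ i < r, R ^ (2 * K) < p i) :
    ∃ v : ℕ → ℕ, ∀ i < r, 1 ≤ v i ∧ v i < p i ∧
      ∀ j < r, j ≠ i → j ≤ i + K → i ≤ j + K →
        ∃ u : ℤ, |u| * R < p i ∧ ((v i : ℕ) : ZMod (p i)) * ((p j : ZMod (p i)))⁻¹ = u := by
  classical
  have h : ∀ i, ∃ v : ℕ, i < r → 1 ≤ v ∧ v < p i ∧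
      ∀ j < r, j ≠ i → j ≤ i + K → i ≤ j + K →
        ∃ u : ℤ, |u| * R < p i ∧ ((v : ℕ) : ZMod (p i)) * ((p j : ZMod (p i)))⁻¹ = u := by
    intro i
    by_cases hi : i < r
    · have : Fact (p i).Prime := ⟨hp i hi⟩
      let T : Finset ℕ := (Icc (i - K) (i + K)).erase i
      have hcard : Fintype.card T ≤ 2 * K := by
        rw [Fintype.card_coe, Finset.card_erase_of_mem (by rw [mem_Icc]; omega), Nat.card_Icc]
        omega
      obtain ⟨v, hv0, hv⟩ := dirichlet (fun j : T => ((p j : ZMod (p i)))⁻¹) R hR1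
        (lt_of_le_of_lt (Nat.pow_le_pow_right hR1 hcard) (hR i hi))
      refine ⟨v.val, fun _ => ⟨?_, ZMod.val_lt v, ?_⟩⟩
      · rw [Nat.one_le_iff_ne_zero]
        intro h
        exact hv0 ((ZMod.val_eq_zero v).1 h)
      · intro j _ hji hj1 hj2
        have hjT : j ∈ T := by
          simp only [T, mem_erase, mem_Icc]
          omega
        obtain ⟨u, hu1, hu2⟩ := hv ⟨j, hjT⟩
        refine ⟨u, hu1, ?_⟩
        rw [ZMod.natCast_zmod_val]
        exact hu2
    · exact ⟨0, fun h => absurd h hi⟩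
  choose v hv using h
  exact ⟨v, fun i hi => hv i hi⟩

/-- the main shifts, chosen one after the other -/
theorem exists_s {r K H L E n D w : ℕ} {p : ℕ → ℕ} (hp : ∀ i < r, (p i).Prime)
    (hinj : ∀ i < r, ∀ j < r, i ≠ j → p i ≠ p j)
    (hH : 1 ≤ H) (hL1 : 1 ≤ L) (hL : ∀ i < r, L ≤ p i) (hw : ∀ i < r, p i ≤ w)
    (hgen : ∀ i < r, Generic H (Ico (i - K) i) p (p i))
    (hsize : ∀ i < r, ∀ t ≤ K, (t : ℝ) * ((p i : ℝ) ^ 2 / (2 * H) *
      ((p i : ℝ) * L) ^ (t - 1)) < (L : ℝ) ^ (2 * t)) :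
    ∃ s : ℕ → ℤ, ∀ i < r, (i * D : ℤ) ≤ s i ∧ s i < i * D + w ∧
      ∀ j < i, i ≤ j + K → ∃ c : ℤ, ((n / p j : ℕ) : ℤ) + E + 1 ≤ c ∧
        c ≤ ((n / p j : ℕ) : ℤ) + E + 2 * L - 1 ∧ (p i : ℤ) ∣ s i - (s j + c * p j) := by
  classical
  have main : ∀ m ≤ r, ∃ s : ℕ → ℤ, ∀ i < m, (i * D : ℤ) ≤ s i ∧ s i < i * D + w ∧
      ∀ j < i, i ≤ j + K → ∃ c : ℤ, ((n / p j : ℕ) : ℤ) + E + 1 ≤ c ∧
        c ≤ ((n / p j : ℕ) : ℤ) + E + 2 * L - 1 ∧ (p i : ℤ) ∣ s i - (s j + c * p j) := by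
    intro m
    induction m with
    | zero => intro _; exact ⟨fun _ => 0, by simp⟩
    | succ m ih =>
      intro hm
      obtain ⟨s, hs⟩ := ih (by omega)
      have hmr : m < r := hm
      have : Fact (p m).Prime := ⟨hp m hmr⟩
      have hpm : 0 < p m := (hp m hmr).pos
      let T : Finset ℕ := Ico (m - K) m
      have hcard : Fintype.card T ≤ K := by
        rw [Fintype.card_coe, Nat.card_Ico]
        omega
      have hne : ∀ j ∈ T, (p j : ZMod (p m)) ≠ 0 := by
        intro j hj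
        simp only [T, mem_Ico] at hj
        rw [Ne, ZMod.natCast_eq_zero_iff]
        intro hdvd
        have := (Nat.prime_dvd_prime_iff_eq (hp m hmr) (hp j (by omega))).1 hdvd
        exact hinj j (by omega) m hmr (by omega) this.symm
      obtain ⟨x, hx⟩ := box_hit (q := p m) (ι := T) L H hH (hL m hmr)
        (fun j => ((p j : ZMod (p m)))⁻¹)
        (fun j => (s j : ZMod (p m)) * ((p j : ZMod (p m)))⁻¹ +
          (((n / p j : ℕ) : ZMod (p m)) + E + 1 + ((L - 1 : ℕ) : ZMod (p m))))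
        (fun k hk h0 => (hgen m hmr).rel hne k hk h0)
        (hsize m hmr _ hcard)
      -- lift x to the window
      obtain ⟨t, ht0, ht1, ht2⟩ : ∃ t : ℤ, (m * D : ℤ) ≤ t ∧ t < m * D + p m ∧
          (t : ZMod (p m)) = x := by
        refine ⟨m * D + ((x - ((m * D : ℕ) : ZMod (p m))).val : ℤ), by omega, ?_, ?_⟩
        · have := ZMod.val_lt (x - ((m * D : ℕ) : ZMod (p m)))
          omega
        · push_cast
          rw [ZMod.natCast_zmod_val]
          push_cast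
          ring
      refine ⟨Function.update s m t, fun i hi => ?_⟩
      rcases Nat.lt_succ_iff_lt_or_eq.1 hi with him | him
      · rw [Function.update_of_ne him.ne]
        obtain ⟨h1, h2, h3⟩ := hs i him
        refine ⟨h1, h2, fun j hj hij => ?_⟩
        rw [Function.update_of_ne (by omega)]
        exact h3 j hj hij
      · subst him
        rw [Function.update_self]
        have hwi := hw i hmr
        refine ⟨ht0, by omega, fun j hj hij => ?_⟩
        rw [Function.update_of_ne hj.ne]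
        have hjT : j ∈ T := by simp only [T, mem_Ico]; omega
        obtain ⟨u, hu, v, hv, huv⟩ := hx ⟨j, hjT⟩
        simp only [] at huv
        generalize n / p j = A at huv ⊢
        refine ⟨(A : ℤ) + E + 1 + ((L - 1 : ℕ) : ℤ) + u - v, ?_, ?_, ?_⟩
        · omega
        · omega
        · rw [← ZMod.intCast_zmod_eq_zero_iff_dvd]
          push_cast
          rw [ht2]
          have h4 := hne j hjT
          have h5 : x = ((s j : ZMod (p i)) * ((p j : ZMod (p i)))⁻¹ +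
              ((A : ZMod (p i)) + E + 1 + ((L - 1 : ℕ) : ZMod (p i))) +
              ((u : ZMod (p i)) - (v : ZMod (p i)))) * (p j : ZMod (p i)) := by
            rw [← huv]
            field_simp
          rw [h5]
          field_simp
          push_cast
          ring
  exact main r le_rfl

end Pool.Agent.LibH27.Pack
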