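import Pool.Agent.Lib_helper27.Pack.Big
import Pool.Agent.Lib_helper27.Pack.PntSqrt

/-!
# Assembly of the packing of all progressions
-/

namespace Pool.Agent.LibH27.Pack

open Finset

theorem PackF.single (n d : ℕ) : PackF n {d} n := by
  refine ⟨fun _ => 0, by simp, ?_⟩
  rintro a ha b hb hab
  rw [Set.mem_singleton_iff] at ha hb
  exact absurd (ha.trans hb.symm) hab

/-- the primes up to `√n / J` -/
noncomputable def smallP (J n : ℕ) : Finset ℕ :=
  (Finset.Ioc 0 ⌊(1 : ℝ) / J * Real.sqrt n⌋₊).filter Nat.Prime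

theorem upper_finite (n J M Y L1 : ℕ) (Lk : ℕ → ℕ) (hn : 1 ≤ n) (hJ : 1 ≤ J)
    (hY : (Y : ℝ) ≤ M * (Real.sqrt n / J)) (h1 : PackF n {d | Y < d ∧ d ≤ n} L1)
    (hblock : ∀ k ∈ Finset.Ico 1 J,
      PackF n {d | ∃ q ∈ blockP J k n, ∃ m, 1 ≤ m ∧ m ≤ M ∧ d = m * q} (Lk k)) :
    PackF n (Set.Icc 1 n)
      (L1 + (M * n + (n + ((smallP J n).card * (n + Y) + ∑ k ∈ Finset.Ico 1 J, Lk k)))) := by
  classical
  have h2 : PackF n (⋃ k ∈ Finset.Icc 1 M, {d | ∃ p, p.Prime ∧ n < p * p ∧ d = k * p}) (M * n) := by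
    refine (PackF.iUnion (Finset.Icc 1 M) _ (fun _ => n) fun k hk =>
      PackF.big n k (Finset.mem_Icc.1 hk).1).mono le_rfl ?_
    simp
  have h3 := PackF.single n 1
  have h4 : PackF n (⋃ p ∈ smallP J n,
      {d | d ≠ 0 ∧ d ≤ Y ∧ ∃ t, d.primeFactorsList.reverse = p :: t})
      ((smallP J n).card * (n + Y)) := by
    refine (PackF.iUnion (smallP J n) _ (fun _ => n + Y) fun p _ => PackF.radix n p Y).mono le_rfl ?_
    simp
  have h5 := PackF.iUnion (n := n) (Finset.Ico 1 J) _ Lk hblock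
  refine (h1.union (h2.union (h3.union (h4.union h5)))).mono ?_ le_rfl
  rintro d ⟨hd1, hdn⟩
  by_cases hdY : Y < d
  · exact Or.inl ⟨hdY, hdn⟩
  push Not at hdY
  by_cases hd1' : d = 1
  · exact Or.inr (Or.inr (Or.inl hd1'))
  have hd0 : d ≠ 0 := by omega
  obtain ⟨p, t, hpt⟩ : ∃ p t, d.primeFactorsList.reverse = p :: t := by
    rcases h : d.primeFactorsList.reverse with _ | ⟨p, t⟩
    · rw [List.reverse_eq_nil_iff, Nat.primeFactorsList_eq_nil] at h
      omega
    · exact ⟨p, t, rfl⟩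
  have hpmem : p ∈ d.primeFactorsList := by
    rw [← List.mem_reverse, hpt]; simp
  have hp : p.Prime := Nat.prime_of_mem_primeFactorsList hpmem
  obtain ⟨k, hk⟩ := Nat.dvd_of_mem_primeFactorsList hpmem
  have hk1 : 1 ≤ k := by
    rcases Nat.eq_zero_or_pos k with h | h
    · subst h; omega
    · exact h
  have hnr : (1 : ℝ) ≤ n := by exact_mod_cast hn
  have hs : 0 < Real.sqrt n := Real.sqrt_pos.2 (by linarith)
  have hss : Real.sqrt n * Real.sqrt n = n := Real.mul_self_sqrt (by linarith)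
  have hJr : (1 : ℝ) ≤ J := by exact_mod_cast hJ
  have hpr : (0 : ℝ) < p := by exact_mod_cast hp.pos
  have hkp : (k : ℝ) * p ≤ M * (Real.sqrt n / J) := by
    refine le_trans ?_ hY
    have : ((p * k : ℕ) : ℝ) ≤ Y := by rw [← hk]; exact_mod_cast hdY
    push_cast at this
    linarith
  by_cases hpB : (p : ℝ) ≤ 1 / J * Real.sqrt n
  · right; right; right; left
    simp only [Set.mem_iUnion]
    refine ⟨p, ?_, hd0, hdY, t, hpt⟩
    unfold smallP
    rw [Finset.mem_filter, Finset.mem_Ioc]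
    exact ⟨⟨hp.pos, Nat.le_floor hpB⟩, hp⟩
  push Not at hpB
  have hpJ : Real.sqrt n / J < p := by
    calc Real.sqrt n / J = 1 / J * Real.sqrt n := by ring
      _ < p := hpB
  have hkM : k ≤ M := by
    have h6 : (k : ℝ) * p ≤ M * p := hkp.trans (by gcongr)
    have h7 : (k : ℝ) ≤ M := le_of_mul_le_mul_right h6 hpr
    exact_mod_cast h7
  by_cases hpn : n < p * p
  · right; left
    simp only [Set.mem_iUnion]
    exact ⟨k, Finset.mem_Icc.2 ⟨hk1, hkM⟩, p, hp, hpn, by rw [hk, mul_comm]⟩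
  · push Not at hpn
    have hps : (p : ℝ) ≤ Real.sqrt n := by
      rw [Real.le_sqrt hpr.le (by linarith), sq]
      exact_mod_cast hpn
    right; right; right; right
    simp only [Set.mem_iUnion]
    have h6 : 1 < (p : ℝ) * J / Real.sqrt n := by
      rw [lt_div_iff₀ hs]
      rw [div_lt_iff₀ (by linarith)] at hpJ
      linarith
    have h7 : (p : ℝ) * J / Real.sqrt n ≤ J := by
      rw [div_le_iff₀ hs]
      nlinarith
    set c := ⌈(p : ℝ) * J / Real.sqrt n⌉₊ with hc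
    have h8 : 1 < c := by rw [hc, Nat.lt_ceil]; exact_mod_cast h6
    have h9 : c ≤ J := Nat.ceil_le.2 h7
    refine ⟨c - 1, Finset.mem_Ico.2 ⟨by omega, by omega⟩, p, ?_, k, hk1, hkM,
      by rw [hk, mul_comm]⟩
    rw [mem_blockP]
    have h10 : ((c - 1 : ℕ) : ℝ) = c - 1 := by
      rw [Nat.cast_sub (by omega)]; simp
    have h11 : (p : ℝ) = (p * J / Real.sqrt n) / J * Real.sqrt n := by
      field_simp
    refine ⟨hp, ?_, ?_⟩
    · have h12 : ((c : ℝ) - 1) < (p : ℝ) * J / Real.sqrt n := by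
        have := Nat.ceil_lt_add_one (le_of_lt (lt_trans one_pos h6))
        rw [← hc] at this
        linarith
      rw [h10]
      calc ((c : ℝ) - 1) / J * Real.sqrt n < (p * J / Real.sqrt n) / J * Real.sqrt n := by gcongr
        _ = p := h11.symm
    · have h12 : (p : ℝ) * J / Real.sqrt n ≤ c := Nat.le_ceil _
      rw [h10]
      calc (p : ℝ) = (p * J / Real.sqrt n) / J * Real.sqrt n := h11
        _ ≤ (c : ℝ) / J * Real.sqrt n := by gcongr
        _ = ((c : ℝ) - 1 + 1) / J * Real.sqrt n := by ring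

end Pool.Agent.LibH27.Pack
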